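import Pool.Agent.R370.US.Fin

/-!
# Universal operators: the criteria for one variety
-/

open CategoryTheory AlgebraicGeometry Finset

universe u v

namespace Pool.Agent.R370.US

open Pool.Agent.H914 Pool.Agent.W534 Pool.Agent.TH720.LB VarClass Obj WeilCohomology

variable {k : Type u} [Field k] {𝒱 : VarClass k} {ops : CycleOps 𝒱}
  {W : WeilCohomology.{u, v} ops} {X Y Z : 𝒱.Obj} {D : X.Cycles}

section

variable {S : ∀ X Y : 𝒱.Obj, ℤ → (W.H X →ₗ[W.K] W.H Y) → Prop} (hS : OpSys W S)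
  {Q : 𝒱.Obj} {q : Q.Cycles} (hQ : IsProjLike W Q q)
include hS hQ

lemma prodF_mem {F : Module.End W.K (W.H X)} (hF : S X X (-1) F) :
    S (X.prod Q) (X.prod Q) (-1) (prodF W X q F) := by
  have hR := hS.opAlg (X.prod Q)
  rw [prodF]
  refine hR.sum fun a ha => ?_
  have ha' : a ≤ Q.dim := by simp at ha; omega
  refine hR.add ?_ ?_
  · exact hS.cast (hS.comp (hS.base (qop_inc hQ a)) (hS.comp hF (hS.base (qop_coe hQ ha'))))
      (by ring)
  · rcases Nat.eq_zero_or_pos a with rfl | h0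
    · rw [Nat.cast_zero, zero_mul, zero_smul]
      exact hR.zero _
    · have h1 : S (X.prod Q) (X.prod Q) (-1) (inc W X q (a - 1) ∘ₗ coe W X q a) :=
        hS.cast (hS.comp (hS.base (qop_inc hQ (a - 1))) (hS.base (qop_coe hQ ha')))
          (by rw [Nat.cast_sub h0]; push_cast; ring)
      have h2 := hS.smul ((a : ℚ) * ((Q.dim : ℚ) - a + 1)) h1
      have h3 : (((a : ℚ) * ((Q.dim : ℚ) - a + 1) : ℚ) : W.K) =
          (a : W.K) * ((Q.dim : W.K) - a + 1) := by push_cast; ring
      rwa [h3] at h2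

lemma wt_prod_mem (hH : S X X 0 (wt (W.isInternal X) X.dim)) :
    S (X.prod Q) (X.prod Q) 0 (wt (W.isInternal (X.prod Q)) (X.prod Q).dim) := by
  have hR := hS.opAlg (X.prod Q)
  have h1 : wt (W.isInternal (X.prod Q)) (X.prod Q).dim = ∑ a ∈ range (Q.dim + 1),
      (inc W X q a ∘ₗ wt (W.isInternal X) X.dim ∘ₗ coe W X q a +
        ((2 * (a : ℚ) - Q.dim : ℚ) : W.K) • (inc W X q a ∘ₗ coe W X q a)) := by
    apply LinearMap.ext
    intro y
    refine prod_induction hQ (p := fun y => wt (W.isInternal (X.prod Q)) (X.prod Q).dim y =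
      (∑ a ∈ range (Q.dim + 1), (inc W X q a ∘ₗ wt (W.isInternal X) X.dim ∘ₗ coe W X q a +
        ((2 * (a : ℚ) - Q.dim : ℚ) : W.K) • (inc W X q a ∘ₗ coe W X q a))) y) ?_ ?_ y
    · intro y y' hy hy'
      rw [map_add, map_add, hy, hy']
    · intro b hb x
      rw [wt_inc hQ, LinearMap.sum_apply, Finset.sum_eq_single b]
      · simp only [LinearMap.add_apply, LinearMap.comp_apply, LinearMap.smul_apply]
        rw [coe_inc hQ hb, if_pos rfl]
        push_cast
        rfl
      · intro a ha hab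
        have ha' : a ≤ Q.dim := by simp at ha; omega
        simp only [LinearMap.add_apply, LinearMap.comp_apply, LinearMap.smul_apply]
        rw [coe_inc hQ ha', if_neg hab, map_zero, map_zero, smul_zero, add_zero]
      · intro h'; exact absurd (Finset.mem_range.2 (by omega)) h'
  rw [h1]
  refine hR.sum fun a ha => ?_
  have ha' : a ≤ Q.dim := by simp at ha; omega
  refine hR.add ?_ (hR.smul _ ?_)
  · exact hS.cast (hS.comp (hS.base (qop_inc hQ a)) (hS.comp hH (hS.base (qop_coe hQ ha'))))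
      (by ring)
  · exact hS.cast (hS.comp (hS.base (qop_inc hQ a)) (hS.base (qop_coe hQ ha'))) (by ring)

end

section

variable {P : ℕ → 𝒱.Obj} {h : ∀ m, (P m).Cycles} {Pol : ∀ X : 𝒱.Obj, X.Cycles → Prop}
  (hdim : ∀ m, (P m).dim = m) (hproj : ∀ m, IsProjLike W (P m) (h m))
  (hPol : IsPolClass W P h Pol)

include hproj hPol

omit hPol in
lemma wt_twice {S : ∀ X Y : 𝒱.Obj, ℤ → (W.H X →ₗ[W.K] W.H Y) → Prop} (hS : OpSys W S)
    (hH : S X X 0 (wt (W.isInternal X) X.dim)) (N M : ℕ) :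
    S (twice P X N M) (twice P X N M) 0
      (wt (W.isInternal (twice P X N M)) (twice P X N M).dim) :=
  wt_prod_mem hS (hproj M) (wt_prod_mem hS (hproj N) hH)

lemma kunneth_twice {S : ∀ X Y : 𝒱.Obj, ℤ → (W.H X →ₗ[W.K] W.H Y) → Prop} (hS : OpSys W S)
    (hX : Pol X D) (hK : ∀ i ≤ 2 * X.dim, ∃ Q, S X X 0 Q ∧ IsProjector (W.gr X) i Q) (N M : ℕ) :
    ∀ i ≤ 2 * (twice P X N M).dim, ∃ Q, S (twice P X N M) (twice P X N M) 0 Q ∧
      IsProjector (W.gr (twice P X N M)) i Q := by
  obtain ⟨H, F, ht⟩ := trip_exists (W := W) (hPol.div hX) (hPol.hard hX)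
  have h1 := H_of_proj hS ht hK
  rw [trip_wt ht] at h1
  have hX' := pol_twice hPol hX N M
  obtain ⟨H', F', ht'⟩ := trip_exists (W := W) (hPol.div hX') (hPol.hard hX')
  have h2 := wt_twice hproj hS h1 N M
  rw [← trip_wt ht'] at h2
  exact proj_of_H hS ht' h2

lemma lefB_twice (hX : Pol X D) (hB : LefschetzB W X D) (N M : ℕ) :
    LefschetzB W (twice P X N M) (twiceDiv ops P h X D N M) := by
  obtain ⟨H, F, ht⟩ := trip_exists (W := W) (hPol.div hX) (hPol.hard hX)
  obtain ⟨Φ, hΦ, hLam⟩ := lefschetzB_iff_rop.1 hB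
  obtain ⟨_, h2⟩ := F_of_lam (opSys_K W) (hPol.div hX) (hPol.hard hX)
    (rop_iff.1 hΦ).kop hLam ht
  have hX1 := hPol.prod N hX
  have hX' := pol_twice hPol hX N M
  have ht1 := prod_triple (hproj N) (hPol.div hX) ht
  have ht2 := prod_triple (hproj M) (hPol.div hX1) ht1
  exact lefB_of_F (hPol.div hX') (hPol.hard hX') ht2
    (prodF_mem (opSys_K W) (hproj M) (prodF_mem (opSys_K W) (hproj N) h2))

include hdim

/-- The criterion for conjecture B for one variety. -/
theorem one_three (hX : Pol X D) {T : Uni} {d : ℤ} (hT : T.Homogeneous d) {b c a : ℕ}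
    (htop : T.Top b c) (hc : c ≠ 0) (ha : (a : ℤ) = c + d) :
    List.TFAE [
      ∀ N, c - 1 ≤ N → N ≤ c - 1 + b → SpanOn W T d (twice P X N a) (twiceDiv ops P h X D N a),
      ∀ N M, RatOn W T d (twice P X N M) (twiceDiv ops P h X D N M),
      LefschetzB W X D] := by
  tfae_have 1 → 3 := by
    intro h1
    exact lefB_of_T hdim hproj hPol hX hT htop (by omega) ha fun N h2 h3 =>
      h1 N (by omega) (by omega)
  tfae_have 3 → 2 := by
    intro h1 N M
    exact ratOn_of_lefB hPol hT (pol_twice hPol hX N M) (lefB_twice hproj hPol hX h1 N M)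
  tfae_have 2 → 1 := by
    intro h1 N _ _ H F ht
    exact spanAlg_iff.2 (QOp.kop (ratAlg_iff.1 (h1 N a H F ht)))
  tfae_finish

/-- The criterion for the Künneth projectors for one variety. -/
theorem one_two_span (hX : Pol X D) {T : Uni} {d : ℤ} (hT : T.Homogeneous d) {b a : ℕ}
    (htop : T.Top b 0) (hb : b ≠ 0) (ha : (a : ℤ) = d) :
    List.TFAE [
      ∀ N ≤ b, SpanOn W T d (twice P X N a) (twiceDiv ops P h X D N a),
      ∀ N M, SpanOn W T d (twice P X N M) (twiceDiv ops P h X D N M),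
      KunnethSpan W X] := by
  have hB : T.InB := fun m hm => Nat.le_zero.1 (htop.1 m hm)
  tfae_have 1 → 3 := by
    intro h1
    exact kunneth_of_T hdim hproj hPol hX hT htop (by omega) ha h1
  tfae_have 3 → 2 := by
    intro h1 N M
    refine spanOn_of_kunneth hPol hT hB (pol_twice hPol hX N M) ?_
    have h2 := kunneth_twice hproj hPol (opSys_K W) hX (fun i hi => by
      obtain ⟨Q, hQ, hQp⟩ := h1 i hi
      exact ⟨Q, spanAlg_iff.1 hQ, hQp⟩) N M
    intro i hi
    obtain ⟨Q, hQ, hQp⟩ := h2 i hi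
    exact ⟨Q, spanAlg_iff.2 hQ, hQp⟩
  tfae_have 2 → 1 := by
    intro h1 N _
    exact h1 N a
  tfae_finish

/-- The criterion for the Künneth projectors for one variety, with rational cycles. -/
theorem one_two_rat (hX : Pol X D) {T : Uni} {d : ℤ} (hT : T.Homogeneous d) {b a : ℕ}
    (htop : T.Top b 0) (hb : b ≠ 0) (ha : (a : ℤ) = d) :
    List.TFAE [
      ∀ N ≤ b, RatOn W T d (twice P X N a) (twiceDiv ops P h X D N a),
      ∀ N M, RatOn W T d (twice P X N M) (twiceDiv ops P h X D N M),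
      KunnethRat W X] := by
  have hB : T.InB := fun m hm => Nat.le_zero.1 (htop.1 m hm)
  tfae_have 1 → 3 := by
    intro h1
    exact kunneth_of_T_rat hdim hproj hPol hX hT htop (by omega) ha h1
  tfae_have 3 → 2 := by
    intro h1 N M
    exact ratOn_of_kunneth hPol hT hB (pol_twice hPol hX N M)
      (kunneth_twice hproj hPol (opSys_Q W) hX h1 N M)
  tfae_have 2 → 1 := by
    intro h1 N _
    exact h1 N a
  tfae_finish

end

end Pool.Agent.R370.US
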