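import Mathlib

/-!
# Universal operators in the Lefschetz algebra: the algebraic definitions
-/

namespace Pool.Agent.R370.US

section Alg

variable {K : Type*} [Field K] {V : Type*} [AddCommGroup V] [Module K V]

/-- `H` is the multiplication by `j - n` on `gr j`, for all `j`. -/
def IsWeight (gr : ℕ → Submodule K V) (n : ℕ) (H : Module.End K V) : Prop :=
  ∀ j, ∀ a ∈ gr j, H a = ((j : K) - (n : K)) • a

/-- `F` maps `gr (j + 2)` to `gr j` for all `j`, and is zero on `gr 0` and on `gr 1`. -/
def IsLowering (gr : ℕ → Submodule K V) (F : Module.End K V) : Prop :=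
  (∀ j, ∀ a ∈ gr (j + 2), F a ∈ gr j) ∧ ∀ j < 2, ∀ a ∈ gr j, F a = 0

/-- `(L, H, F)` is the `sl(2)`-triple of the operator `L` on a graded space centred in degree `n`:
`H` is the multiplication by `j - n` on `gr j`, `F` lowers the degree by two, `L F - F L = H`. -/
structure IsTriple (gr : ℕ → Submodule K V) (n : ℕ) (L H F : Module.End K V) : Prop where
  weight : IsWeight gr n H
  lowering : IsLowering gr F
  comm : L * F - F * L = H

/-- There is exactly one pair `(H, F)` such that `(L, H, F)` is an `sl(2)`-triple. -/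
def HasOneTriple (gr : ℕ → Submodule K V) (n : ℕ) (L : Module.End K V) : Prop :=
  ∃! p : Module.End K V × Module.End K V, IsTriple gr n L p.1 p.2

/-- `φ` is a linear combination of the operators for which `S` holds. -/
def InSpanOf (S : Module.End K V → Prop) (φ : Module.End K V) : Prop :=
  φ ∈ Submodule.span K {ψ | S ψ}

/-- The operator `φ` is zero. -/
def IsZeroOp (φ : Module.End K V) : Prop := φ = 0

end Alg

/-- The elements of the enveloping algebra `U` of `sl(2)` over `ℚ`, in the basis of Poincare,
Birkhoff and Witt: the value at `(a, b, c)` is the coefficient of `e ^ a h ^ b f ^ c`. -/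
abbrev Uni : Type := (ℕ × ℕ × ℕ) →₀ ℚ

namespace Uni

/-- `T` is homogeneous of degree `d`: it is a combination of the `e ^ a h ^ b f ^ c` with
`a - c = d`. -/
def Homogeneous (T : Uni) (d : ℤ) : Prop := ∀ m ∈ T.support, (m.1 : ℤ) - (m.2.2 : ℤ) = d

/-- `T` is a polynomial in `e`. -/
def InE (T : Uni) : Prop := ∀ m ∈ T.support, m.2.1 = 0 ∧ m.2.2 = 0

/-- `T` lies in the subalgebra generated by `e` and `h`. -/
def InB (T : Uni) : Prop := ∀ m ∈ T.support, m.2.2 = 0

/-- The operator `T(L, H, F)`, where `e`, `h`, `f` act as `L`, `H`, `F`. -/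
noncomputable def eval {K : Type*} [Field K] {V : Type*} [AddCommGroup V] [Module K V] (T : Uni)
    (L H F : Module.End K V) : Module.End K V :=
  T.sum fun m q => (q : K) • (L ^ m.1 * H ^ m.2.1 * F ^ m.2.2)

end Uni

end Pool.Agent.R370.US
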