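import Mathlib

/-!
# Subspaces of polynomials containing many translates of a polynomial
-/

open Polynomial

namespace Pool.Agent.R370.US

lemma comp_shift (p : ℚ[X]) (a b : ℚ) : (p.comp (X - C a)).comp (X - C b) = p.comp (X - C (a + b)) := by
  rw [comp_assoc]
  congr 1
  rw [sub_comp, X_comp, C_comp, C_add]
  ring

lemma eq_C_of_periodic {p : ℚ[X]} (h : p.comp (X - C 1) = p) : p = C (p.eval 0) := by
  have h1 : ∀ n : ℕ, p.eval ((n : ℚ)) = p.eval 0 := by
    intro n
    induction n with
    | zero => simp
    | succ n ih =>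
      have h2 := congrArg (fun q => q.eval (((n + 1 : ℕ) : ℚ))) h
      simp only [eval_comp, eval_sub, eval_X, eval_C] at h2
      rw [← h2, ← ih]
      congr 1
      push_cast
      ring
  apply Polynomial.eq_of_infinite_eval_eq
  refine Set.Infinite.mono (s := Set.range fun n : ℕ => (n : ℚ)) ?_
    (Set.infinite_range_of_injective Nat.cast_injective)
  rintro _ ⟨n, rfl⟩
  simp only [Set.mem_setOf_eq, eval_C]
  exact h1 n

lemma natDegree_diff_lt {p : ℚ[X]} (hp : 1 ≤ p.natDegree) :
    (p - p.comp (X - C 1)).natDegree < p.natDegree := by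
  have hp0 : p ≠ 0 := by
    rintro rfl
    simp at hp
  have h1 : (X - C (1 : ℚ)).natDegree = 1 := natDegree_X_sub_C 1
  have h2 : (p.comp (X - C 1)).natDegree = p.natDegree := by
    rw [natDegree_comp, h1, mul_one]
  have h3 : p.comp (X - C 1) ≠ 0 := by
    intro h
    rw [h, natDegree_zero] at h2
    omega
  have h4 : p.degree = (p.comp (X - C 1)).degree := by
    rw [degree_eq_natDegree hp0, degree_eq_natDegree h3, h2]
  have h5 : p.leadingCoeff = (p.comp (X - C 1)).leadingCoeff := by
    rw [leadingCoeff_comp (by rw [h1]; exact one_ne_zero), leadingCoeff_X_sub_C, one_pow, mul_one]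
  have h6 := degree_sub_lt h4 hp0 h5
  by_cases h7 : p - p.comp (X - C 1) = 0
  · rw [h7, natDegree_zero]; omega
  · exact natDegree_lt_natDegree h7 h6

/-- A space containing sufficiently many successive translates of a nonzero polynomial contains the
constants. -/
lemma one_mem_of_shifts (S : Submodule ℚ ℚ[X]) : ∀ (n : ℕ) (p : ℚ[X]), p ≠ 0 → p.natDegree ≤ n →
    ∀ R₀ : ℕ, (∀ R : ℕ, R₀ ≤ R → R ≤ R₀ + p.natDegree → p.comp (X - C (R : ℚ)) ∈ S) →
      (1 : ℚ[X]) ∈ S := by
  intro n
  induction n with
  | zero =>
    intro p hp hn R₀ h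
    have h1 : p = C (p.coeff 0) := eq_C_of_natDegree_le_zero hn
    have h2 := h R₀ le_rfl (by omega)
    have hc : p.coeff 0 ≠ 0 := by
      intro h0
      rw [h0, C_0] at h1
      exact hp h1
    rw [h1, C_comp] at h2
    have h3 := S.smul_mem (p.coeff 0)⁻¹ h2
    rw [smul_C, smul_eq_mul, inv_mul_cancel₀ hc, C_1] at h3
    exact h3
  | succ n ih =>
    intro p hp hn R₀ h
    by_cases h0 : p.natDegree = 0
    · exact ih p hp (by omega) R₀ h
    · have hlt := natDegree_diff_lt (p := p) (by omega)
      refine ih (p - p.comp (X - C 1)) ?_ (by omega) R₀ ?_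
      · intro h1
        have h2 := eq_C_of_periodic (sub_eq_zero.1 h1).symm
        rw [h2, natDegree_C] at h0
        exact h0 rfl
      · intro R hR hR'
        rw [sub_comp, comp_shift]
        apply S.sub_mem (h R hR (by omega))
        have h3 := h (R + 1) (by omega) (by omega)
        rw [add_comm (1 : ℚ)]
        push_cast at h3
        exact h3

/-- A space containing sufficiently many successive translates of a nonconstant polynomial contains
the variable. -/
lemma X_mem_of_shifts (S : Submodule ℚ ℚ[X]) : ∀ (n : ℕ) (p : ℚ[X]), 1 ≤ p.natDegree →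
    p.natDegree ≤ n → ∀ R₀ : ℕ,
    (∀ R : ℕ, R₀ ≤ R → R ≤ R₀ + p.natDegree → p.comp (X - C (R : ℚ)) ∈ S) → (X : ℚ[X]) ∈ S := by
  intro n
  induction n with
  | zero => intro p h1 h2; omega
  | succ n ih =>
    intro p h1 hn R₀ h
    have hp : p ≠ 0 := by
      rintro rfl
      simp at h1
    by_cases h2 : p.natDegree = 1
    · have h3 := one_mem_of_shifts S _ p hp le_rfl R₀ h
      have h4 := h R₀ le_rfl (by omega)
      have h5 : p = C (p.coeff 1) * X + C (p.coeff 0) := eq_X_add_C_of_natDegree_le_one (by omega)
      have hc : p.coeff 1 ≠ 0 := by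
        have := leadingCoeff_ne_zero.2 hp
        rwa [leadingCoeff, h2] at this
      have h6 : p.comp (X - C (R₀ : ℚ)) = (p.coeff 1) • (X : ℚ[X]) +
          (p.coeff 0 - p.coeff 1 * R₀) • (1 : ℚ[X]) := by
        conv_lhs => rw [h5]
        rw [add_comp, mul_comp, C_comp, C_comp, X_comp, smul_eq_C_mul, smul_eq_C_mul, C_sub, C_mul]
        ring
      rw [h6] at h4
      have h7 := S.sub_mem h4 (S.smul_mem (p.coeff 0 - p.coeff 1 * R₀) h3)
      rw [add_sub_cancel_right] at h7
      have h8 := S.smul_mem (p.coeff 1)⁻¹ h7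
      rwa [smul_smul, inv_mul_cancel₀ hc, one_smul] at h8
    · have hlt := natDegree_diff_lt (p := p) h1
      refine ih (p - p.comp (X - C 1)) ?_ (by omega) R₀ ?_
      · by_contra h3
        have h4 : (p - p.comp (X - C 1)).natDegree = 0 := by omega
        obtain ⟨γ, hγ⟩ : ∃ γ, p - p.comp (X - C 1) = C γ := ⟨_, eq_C_of_natDegree_eq_zero h4⟩
        have h5 : (p - C γ * X).comp (X - C 1) = p - C γ * X := by
          rw [sub_comp, mul_comp, C_comp, X_comp]
          have : p.comp (X - C 1) = p - C γ := by rw [← hγ]; ring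
          rw [this, C_1]
          ring
        have h6 := eq_C_of_periodic h5
        have h7 : p = C γ * X + C ((p - C γ * X).eval 0) := by
          rw [← h6]; ring
        have h8 : p.natDegree ≤ 1 := by
          rw [h7]
          exact natDegree_linear_le
        omega
      · intro R hR hR'
        rw [sub_comp, comp_shift]
        apply S.sub_mem (h R hR (by omega))
        have h3 := h (R + 1) (by omega) (by omega)
        rw [add_comm (1 : ℚ)]
        push_cast at h3
        exact h3

end Pool.Agent.R370.US
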