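import Pool.Agent.H914R2.HLam
import Pool.Agent.R370.US.ADefs
import Pool.Agent.R370.US.Poly

/-!
# The `sl(2)`-triple of a Lefschetz operator
-/

open Finset Polynomial

namespace Pool.Agent.R370.US

open Pool.Agent.H914

variable {K : Type*} [Field K] [CharZero K] {V : Type*} [AddCommGroup V] [Module K V]
  {gr : ℕ → Submodule K V} {n : ℕ} {L H F : Module.End K V}

omit [CharZero K] in
lemma isLowering_iff : IsLowering gr F ↔ IsHom gr (-2) F := by
  constructor
  · rintro ⟨h1, h2⟩ i a ha
    by_cases hi : 0 ≤ i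
    · lift i to ℕ using hi
      rw [grZ_natCast] at ha
      rcases Nat.lt_or_ge i 2 with h3 | h3
      · rw [h2 i h3 a ha]
        exact Submodule.zero_mem _
      · obtain ⟨j, rfl⟩ : ∃ j, i = j + 2 := ⟨i - 2, by omega⟩
        have h4 := h1 j a ha
        rw [show ((j + 2 : ℕ) : ℤ) + -2 = (j : ℤ) by push_cast; ring, grZ_natCast]
        exact h4
    · rw [grZ_of_neg (by omega)] at ha
      rw [(Submodule.mem_bot _).1 ha, map_zero]
      exact Submodule.zero_mem _
  · intro h
    constructor
    · intro j a ha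
      have h1 := h ((j + 2 : ℕ) : ℤ) a (by rw [grZ_natCast]; exact ha)
      rwa [show ((j + 2 : ℕ) : ℤ) + -2 = (j : ℤ) by push_cast; ring, grZ_natCast] at h1
    · intro j hj a ha
      have h1 := h (j : ℤ) a (by rw [grZ_natCast]; exact ha)
      rw [grZ_of_neg (by omega)] at h1
      exact (Submodule.mem_bot _).1 h1

lemma wt_isWeight (h : DirectSum.IsInternal gr) : IsWeight gr n (wt h n : Module.End K V) := by
  intro j a ha
  rw [wt, scal_apply h _ ha]
  congr 1
  rw [node]
  push_cast
  ring

lemma isWeight_eq (h : DirectSum.IsInternal gr) (hH : IsWeight gr n H) : H = wt h n := by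
  apply gr_ext h
  intro j a ha
  rw [hH j a ha, wt_isWeight h j a ha]

/-- The lowering operator is unique. -/
lemma lowering_unique (h : DirectSum.IsInternal gr) (hL : IsHom gr 2 L)
    (hbd : ∀ i, 2 * n + 1 ≤ i → gr i = ⊥) (hHL : HardLef gr n L) {F F' : Module.End K V}
    (hF : IsHom gr (-2) F) (hF' : IsHom gr (-2) F') (hc : L * F - F * L = L * F' - F' * L) :
    F = F' := by
  have hG : IsHom gr (-2) (F - F') := hF.sub hF'
  have hLG : ∀ x, L ((F - F') x) = (F - F') (L x) := by
    intro x
    have h1 : L * (F - F') = (F - F') * L := by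
      have : L * F - L * F' = F * L - F' * L := by
        rw [sub_eq_sub_iff_add_eq_add] at hc ⊢
        rw [hc]; abel
      rw [mul_sub, sub_mul, this]
    exact congrArg (fun y => y x) h1
  have hLGk : ∀ k x, (L ^ k) ((F - F') x) = (F - F') ((L ^ k) x) := by
    intro k
    induction k with
    | zero => intro x; rfl
    | succ k ih => intro x; rw [pow_succ', Module.End.mul_apply, ih, hLG, Module.End.mul_apply]
  have hG' := (isLowering_iff (F := F - F')).2 hG
  have h0 : ∀ x, (F - F') x = 0 := by
    intro x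
    refine lef_induction' h hL hbd hHL (p := fun x => (F - F') x = 0) ?_ ?_ x
    · intro a b ha hb; rw [map_add, ha, hb, add_zero]
    · intro i hi a ha hp j
      rw [← hLGk]
      have h1 : (F - F') a = 0 := by
        rcases Nat.lt_or_ge i 2 with h2 | h2
        · exact hG'.2 i h2 a ha
        · obtain ⟨i', rfl⟩ : ∃ i', i = i' + 2 := ⟨i - 2, by omega⟩
          refine (hHL i' (by omega)).1 _ (hG'.1 i' a ha) ?_
          rw [show n - i' = (n - (i' + 2) + 1) + 1 by omega, pow_succ', Module.End.mul_apply,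
            hLGk, hp, map_zero, map_zero]
      rw [h1, map_zero]
  exact sub_eq_zero.1 (LinearMap.ext h0)

/-- The lowering operator in terms of the Lambda operator. -/
noncomputable def lamF (h : DirectSum.IsInternal gr) (n : ℕ) (L Φ : Module.End K V) :
    Module.End K V :=
  ∑ i ∈ range (n + 1), ∑ j ∈ range (n - i + 1),
    ((((j : ℚ) * (((n - i : ℕ) : ℚ) - j + 1) : ℚ)) : K) • (Φ * eij h L Φ i j)

lemma lamF_val (h : DirectSum.IsInternal gr) (hL : IsHom gr 2 L) {Φ : Module.End K V}
    (hΦ : IsLam gr n L Φ) : ∀ i ≤ n, ∀ a ∈ gr i, (L ^ (n - i + 1)) a = 0 → ∀ j ≤ n - i,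
        lamF h n L Φ ((L ^ j) a) = ((j : K) * (((n - i : ℕ) : K) - j + 1)) • (L ^ (j - 1)) a := by
  intro i hi a ha hp j hj
  rw [lamF, LinearMap.sum_apply, Finset.sum_eq_single i]
  · rw [LinearMap.sum_apply, Finset.sum_eq_single j]
    · rw [LinearMap.smul_apply, Module.End.mul_apply, eij_apply h hL hΦ hi ha hp hj,
        if_pos ⟨rfl, rfl⟩]
      rcases Nat.eq_zero_or_pos j with rfl | h0
      · simp
      · have := (hΦ i hi a ha hp).2 (j - 1) (by omega)
        rw [show j - 1 + 1 = j by omega] at this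
        rw [this]
        push_cast
        rfl
    · intro j' _ hj'
      rw [LinearMap.smul_apply, Module.End.mul_apply, eij_apply h hL hΦ hi ha hp hj,
        if_neg (by tauto), map_zero, smul_zero]
    · intro h'; exact absurd (Finset.mem_range.2 (by omega)) h'
  · intro i' _ hi'
    rw [LinearMap.sum_apply]
    apply Finset.sum_eq_zero
    intro j' _
    rw [LinearMap.smul_apply, Module.End.mul_apply, eij_apply h hL hΦ hi ha hp hj,
      if_neg (by tauto), map_zero, smul_zero]
  · intro h'; exact absurd (Finset.mem_range.2 (by omega)) h'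

/-- An operator with the values of the lowering operator is the lowering operator. -/
lemma comm_of_val (h : DirectSum.IsInternal gr) (hL : IsHom gr 2 L)
    (hbd : ∀ i, 2 * n + 1 ≤ i → gr i = ⊥) (hHL : HardLef gr n L) {Lam : Module.End K V}
    (hval : ∀ i ≤ n, ∀ a ∈ gr i, (L ^ (n - i + 1)) a = 0 → ∀ j ≤ n - i,
        Lam ((L ^ j) a) = ((j : K) * (((n - i : ℕ) : K) - j + 1)) • (L ^ (j - 1)) a) :
    L * Lam - Lam * L = wt h n := by
  apply LinearMap.ext
  intro x
  refine lef_induction' h hL hbd hHL
    (p := fun x => (L * Lam - Lam * L) x = wt h n x) ?_ ?_ x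
  · intro a b ha hb; rw [map_add, map_add, ha, hb]
  · intro i hi a ha hp j
    by_cases hj : j ≤ n - i
    · rw [LinearMap.sub_apply, Module.End.mul_apply, Module.End.mul_apply, hval i hi a ha hp j hj,
        ← Module.End.mul_apply L, ← pow_succ', wt, scal_apply h _ (pow_L_mem hL ha j), map_smul]
      have h1 : L ((L ^ (j - 1)) a) = if j = 0 then L a else (L ^ j) a := by
        split_ifs with h0
        · subst h0; simp
        · rw [← Module.End.mul_apply L, ← pow_succ', show j - 1 + 1 = j by omega]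
      have h2 : Lam ((L ^ (j + 1)) a) = (((j : K) + 1) * (((n - i : ℕ) : K) - j)) • (L ^ j) a := by
        by_cases h3 : j + 1 ≤ n - i
        · rw [hval i hi a ha hp (j + 1) h3, Nat.add_sub_cancel]
          congr 1
          push_cast; ring
        · rw [L_pow_gt hp (by omega), map_zero]
          have : j = n - i := by omega
          rw [this, sub_self, mul_zero, zero_smul]
      rw [h1, h2, node]
      have h3 : ((n - i : ℕ) : K) = n - i := by rw [Nat.cast_sub hi]
      split_ifs with h0
      · subst h0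
        rw [h3]
        push_cast
        simp only [pow_zero, Module.End.one_apply, zero_mul, zero_smul, zero_sub, mul_zero,
          add_zero]
        rw [← neg_smul]
        congr 1
        ring
      · rw [← sub_smul, h3]
        congr 1
        push_cast
        ring
    · rw [L_pow_gt hp (by omega), map_zero, map_zero]

section triple

variable (h : DirectSum.IsInternal gr) (hL : IsHom gr 2 L)
  (hbd : ∀ i, 2 * n + 1 ≤ i → gr i = ⊥) (hHL : HardLef gr n L)
include h hL hbd hHL

/-- The values of the lowering operator. -/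
lemma triple_val [Module.Finite K V] (ht : IsTriple gr n L H F) :
    ∀ i ≤ n, ∀ a ∈ gr i, (L ^ (n - i + 1)) a = 0 → ∀ j ≤ n - i,
        F ((L ^ j) a) = ((j : K) * (((n - i : ℕ) : K) - j + 1)) • (L ^ (j - 1)) a := by
  obtain ⟨Lam, h1, h2, h3⟩ := exists_sl2 h hL hbd hHL
  have h4 : F = Lam := by
    apply lowering_unique h hL hbd hHL (isLowering_iff.1 ht.lowering) h2
    rw [ht.comm, h1.ef, isWeight_eq h ht.weight]
  rw [h4]
  exact h3

lemma triple_unique (ht : IsTriple gr n L H F) {H' F' : Module.End K V}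
    (ht' : IsTriple gr n L H' F') : H = H' ∧ F = F' := by
  have h1 : H = H' := by rw [isWeight_eq h ht.weight, isWeight_eq h ht'.weight]
  refine ⟨h1, ?_⟩
  apply lowering_unique h hL hbd hHL (isLowering_iff.1 ht.lowering) (isLowering_iff.1 ht'.lowering)
  rw [ht.comm, ht'.comm, h1]

lemma exists_triple [Module.Finite K V] : ∃ H F, IsTriple gr n L H F := by
  obtain ⟨Lam, h1, h2, -⟩ := exists_sl2 h hL hbd hHL
  exact ⟨wt h n, Lam, wt_isWeight h, isLowering_iff.2 h2, h1.ef⟩

/-- The powers of the lowering operator on `L ^ j a`, `a` primitive. -/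
lemma F_pow_val [Module.Finite K V] (ht : IsTriple gr n L H F) {i : ℕ} (hi : i ≤ n) {a : V}
    (ha : a ∈ gr i) (hp : (L ^ (n - i + 1)) a = 0) :
    ∀ c j, c ≤ j → j ≤ n - i → ∃ γ : K, γ ≠ 0 ∧ (F ^ c) ((L ^ j) a) = γ • (L ^ (j - c)) a := by
  intro c
  induction c with
  | zero => intro j _ _; exact ⟨1, one_ne_zero, by simp⟩
  | succ c ih =>
    intro j hc hj
    obtain ⟨γ, hγ, h1⟩ := ih j (by omega) hj
    refine ⟨γ * (((j - c : ℕ) : K) * (((n - i : ℕ) : K) - ((j - c : ℕ) : K) + 1)), ?_, ?_⟩
    · apply mul_ne_zero hγ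
      apply mul_ne_zero
      · have : j - c ≠ 0 := by omega
        exact_mod_cast this
      · have h2 : ((n - i : ℕ) : K) - ((j - c : ℕ) : K) + 1 = (((n - i) - (j - c) + 1 : ℕ) : K) := by
          push_cast [Nat.cast_sub (show j - c ≤ n - i by omega)]
          ring
        rw [h2]
        exact Nat.cast_ne_zero.2 (Nat.succ_ne_zero _)
    · rw [pow_succ', Module.End.mul_apply, h1, map_smul,
        triple_val h hL hbd hHL ht i hi a ha hp (j - c) (by omega), smul_smul,
        show j - c - 1 = j - (c + 1) by omega]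

/-- The powers of the lowering operator are injective in the complementary degrees. -/
lemma F_pow_inj [Module.Finite K V] (ht : IsTriple gr n L H F) {c : ℕ} (hc : c ≤ n) :
    ∀ a ∈ gr (n + c), (F ^ c) a = 0 → a = 0 := by
  have hFh : IsHom gr (-2) F := isLowering_iff.1 ht.lowering
  have hmemL : ∀ a ∈ gr (n - c), (L ^ c) a ∈ gr (n + c) := by
    intro a ha
    have := pow_L_mem hL ha c
    rwa [show n - c + 2 * c = n + c by omega] at this
  have hmemF : ∀ a ∈ gr (n + c), (F ^ c) a ∈ gr (n - c) := by
    intro a ha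
    have h1 := (hFh.pow c) ((n + c : ℕ) : ℤ) a (by rw [grZ_natCast]; exact ha)
    rwa [show ((n + c : ℕ) : ℤ) + (c : ℤ) * (-2) = ((n - c : ℕ) : ℤ) by
      rw [Nat.cast_sub hc]; push_cast; ring, grZ_natCast] at h1
  -- surjectivity
  have key := lef_induction hL hbd hHL
    (p := fun i y => i = n - c → ∃ z ∈ gr (n - c), (F ^ c) ((L ^ c) z) = y)
    (by
      intro i a b ha hb hi
      obtain ⟨z, hz, h1⟩ := ha hi
      obtain ⟨z', hz', h1'⟩ := hb hi
      exact ⟨z + z', Submodule.add_mem _ hz hz', by rw [map_add, map_add, h1, h1']⟩)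
    (by
      intro i hi a ha hp j hij
      by_cases hj : j + c ≤ n - i
      · obtain ⟨γ, hγ, h1⟩ := F_pow_val h hL hbd hHL ht hi ha hp c (c + j) (by omega) (by omega)
        rw [Nat.add_sub_cancel_left, pow_add, Module.End.mul_apply] at h1
        refine ⟨γ⁻¹ • (L ^ j) a, Submodule.smul_mem _ _ ?_, ?_⟩
        · rw [← hij]; exact pow_L_mem hL ha j
        · rw [map_smul, map_smul, h1, smul_smul, inv_mul_cancel₀ hγ, one_smul]
      · exact ⟨0, Submodule.zero_mem _, by
          rw [map_zero, map_zero]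
          by_cases h2 : n - i < j
          · rw [L_pow_gt hp h2]
          · exfalso; omega⟩)
  have hsurj : ∀ y ∈ gr (n - c), ∃ z ∈ gr (n - c), (F ^ c) ((L ^ c) z) = y := fun y hy => by
    have := key (n - c) (by omega) y hy 0
    simpa using this
  let E : gr (n - c) →ₗ[K] gr (n - c) :=
    ((F ^ c) ∘ₗ (L ^ c)).restrict fun a ha => hmemF _ (hmemL a ha)
  have hE : Function.Surjective E := by
    rintro ⟨y, hy⟩
    obtain ⟨z, hz, h1⟩ := hsurj y hy
    exact ⟨⟨z, hz⟩, Subtype.ext h1⟩
  have hE' : Function.Injective E := LinearMap.injective_iff_surjective.2 hE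
  intro a ha h0
  obtain ⟨b, hb, hb'⟩ := (hHL (n - c) (by omega)).2 a
    (by rw [show 2 * n - (n - c) = n + c by omega]; exact ha)
  rw [show n - (n - c) = c by omega] at hb'
  have h1 : E ⟨b, hb⟩ = 0 := by
    apply Subtype.ext
    change (F ^ c) ((L ^ c) b) = 0
    rw [hb', h0]
  have h2 : (⟨b, hb⟩ : gr (n - c)) = 0 := hE' (by rw [h1, map_zero])
  have h3 : b = 0 := congrArg Subtype.val h2
  rw [← hb', h3, map_zero]

end triple

end Pool.Agent.R370.US
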