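import Pool.Agent.R370.US.Prod

/-!
# Coefficients of the operators of the product with a projective space
-/

open CategoryTheory AlgebraicGeometry Finset

universe u v

namespace Pool.Agent.R370.US

open Pool.Agent.H914 Pool.Agent.W534 Pool.Agent.TH720.LB VarClass Obj WeilCohomology

section ev

open Polynomial

variable {K : Type*} [Field K] [CharZero K] {V V' : Type*} [AddCommGroup V] [Module K V]
  [AddCommGroup V'] [Module K V']

lemma ev_smul (A : Module.End K V) (r : ℚ) (q : ℚ[X]) : ev A (r • q) = (r : K) • ev A q := by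
  rw [smul_eq_C_mul, map_mul, ev_C, smul_mul_assoc, one_mul]

lemma ev_monomial (A : Module.End K V) (r : ℚ) (b : ℕ) :
    ev A (C r * X ^ b) = (r : K) • A ^ b := by
  rw [map_mul, map_pow, ev_C, ev_X, smul_mul_assoc, one_mul]

lemma ev_intertwine {ι : V →ₗ[K] V'} {A : Module.End K V'} {B : Module.End K V}
    (h : ∀ x, A (ι x) = ι (B x)) (q : ℚ[X]) (x : V) : ev A q (ι x) = ι (ev B q x) := by
  have hk : ∀ (n : ℕ) (x : V), (A ^ n) (ι x) = ι ((B ^ n) x) := by
    intro n
    induction n with
    | zero => intro x; rfl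
    | succ n ih => intro x; rw [pow_succ', Module.End.mul_apply, ih, h, pow_succ',
        Module.End.mul_apply]
  induction q using Polynomial.induction_on' with
  | add p q hp hq => rw [map_add, map_add, LinearMap.add_apply, LinearMap.add_apply, hp, hq,
      map_add]
  | monomial r c =>
    rw [← C_mul_X_pow_eq_monomial, ev_monomial, ev_monomial, LinearMap.smul_apply,
      LinearMap.smul_apply, hk, map_smul]

lemma ev_comp (A : Module.End K V) (p q : ℚ[X]) : ev A (p.comp q) = ev (ev A q) p := by
  induction p using Polynomial.induction_on' with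
  | add p p' hp hp' => rw [add_comp, map_add, map_add, hp, hp']
  | monomial r c =>
    rw [← C_mul_X_pow_eq_monomial, mul_comp, C_comp, pow_comp, X_comp, map_mul, map_pow, ev_C,
      map_mul, map_pow, ev_C, ev_X]

lemma ev_sub_nat (A : Module.End K V) (N : ℕ) :
    ev A (X - C (N : ℚ)) = A - (N : K) • 1 := by
  rw [map_sub, ev_X, ev_C]
  congr 2
  push_cast
  rfl

end ev

lemma eval_apply {K : Type*} [Field K] {V : Type*} [AddCommGroup V] [Module K V] (T : Uni)
    (L H F : Module.End K V) (x : V) : T.eval L H F x =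
      ∑ m ∈ T.support, ((T m : ℚ) : K) • (L ^ m.1) ((H ^ m.2.1) ((F ^ m.2.2) x)) := by
  rw [Uni.eval, Finsupp.sum, LinearMap.sum_apply]
  rfl

open Polynomial in
/-- The polynomial in `h` which is the coefficient of `f ^ c`. -/
noncomputable def topPoly (T : Uni) (c : ℕ) : ℚ[X] :=
  ∑ m ∈ T.support.filter (fun m => m.2.2 = c), C (T m) * X ^ m.2.1

open Polynomial in
lemma coeff_topPoly {T : Uni} {d : ℤ} (hT : T.Homogeneous d) {c : ℕ} {m : ℕ × ℕ × ℕ}
    (hm : m ∈ T.support) (hmc : m.2.2 = c) : (topPoly T c).coeff m.2.1 = T m := by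
  rw [topPoly, finset_sum_coeff, Finset.sum_eq_single m]
  · simp
  · intro m' hm' hne
    rw [Finset.mem_filter] at hm'
    rw [coeff_C_mul_X_pow, if_neg]
    intro h1
    apply hne
    have h2 := hT m hm
    have h3 := hT m' hm'.1
    have h4 : m'.2.2 = m.2.2 := by rw [hm'.2, hmc]
    have h5 : m'.1 = m.1 := by omega
    exact Prod.ext h5 (Prod.ext h1.symm h4)
  · intro h1
    exact absurd (Finset.mem_filter.2 ⟨hm, hmc⟩) h1

open Polynomial in
lemma natDegree_topPoly {T : Uni} {d : ℤ} (hT : T.Homogeneous d) {b c : ℕ} (htop : T.Top b c) :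
    topPoly T c ≠ 0 ∧ (topPoly T c).natDegree = b := by
  obtain ⟨h1, h2, m, hm, hmc, hmb⟩ := htop
  have h3 := coeff_topPoly hT hm hmc
  have h4 : T m ≠ 0 := Finsupp.mem_support_iff.1 hm
  have h5 : topPoly T c ≠ 0 := by
    intro h0
    rw [h0, coeff_zero] at h3
    exact h4 h3.symm
  refine ⟨h5, le_antisymm ?_ ?_⟩
  · rw [topPoly]
    apply natDegree_sum_le_of_forall_le
    intro m' hm'
    rw [Finset.mem_filter] at hm'
    exact (natDegree_C_mul_X_pow_le _ _).trans (h2 m' hm'.1 hm'.2)
  · rw [← hmb]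
    apply le_natDegree_of_ne_zero
    rw [h3]
    exact h4

variable {k : Type u} [Field k] {𝒱 : VarClass k} {ops : CycleOps 𝒱}
  {W : WeilCohomology.{u, v} ops} {X Y Z P : 𝒱.Obj} {D : X.Cycles} {h : P.Cycles}

section

variable (hP : IsProjLike W P h)
include hP

lemma coe_lef (hD : X.IsCyc 1 D) {s : ℕ} (hs : s ≤ P.dim) (y : W.H (X.prod P)) :
    coe W X h s (lef W (X.prod P) (sumDiv ops D h) y) = lef W X D (coe W X h s y) +
      if s = 0 then 0 else coe W X h (s - 1) y := by
  have hmul : ∀ b x, lef W (X.prod P) (sumDiv ops D h) (inc W X h b x) =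
      inc W X h b (lef W X D x) + inc W X h (b + 1) x := fun b x => mul_inc hD b x
  refine prod_induction hP (p := fun y => coe W X h s (lef W (X.prod P) (sumDiv ops D h) y) =
    lef W X D (coe W X h s y) + if s = 0 then 0 else coe W X h (s - 1) y) ?_ ?_ y
  · intro y y' hy hy'
    rw [map_add, map_add, hy, hy', map_add, map_add]
    split_ifs
    · abel
    · rw [map_add]; abel
  · intro b hb x
    rw [hmul, map_add, coe_inc hP hs, coe_inc hP hs, coe_inc hP hs]
    congr 1
    · split_ifs with h1
      · rfl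
      · rw [map_zero]
    · rcases Nat.eq_zero_or_pos s with rfl | h0
      · rw [if_neg (by omega), if_pos rfl]
      · rw [if_neg (by omega : ¬ s = 0), coe_inc hP (by omega)]
        by_cases h1 : s = b + 1
        · rw [if_pos h1, if_pos (by omega)]
        · rw [if_neg h1, if_neg (by omega)]

lemma coe_lef_pow (hD : X.IsCyc 1 D) (a : ℕ) : ∀ {s : ℕ}, s ≤ P.dim → ∀ x : W.H X,
    coe W X h s ((lef W (X.prod P) (sumDiv ops D h) ^ a) (inc W X h 0 x)) =
      (a.choose s : W.K) • (lef W X D ^ (a - s)) x := by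
  induction a with
  | zero =>
    intro s hs x
    rw [pow_zero, Module.End.one_apply, coe_inc hP hs, Nat.zero_sub, pow_zero,
      Module.End.one_apply]
    rcases Nat.eq_zero_or_pos s with rfl | h0
    · simp
    · rw [if_neg (by omega), Nat.choose_eq_zero_of_lt h0, Nat.cast_zero, zero_smul]
  | succ a ih =>
    intro s hs x
    rw [pow_succ', Module.End.mul_apply, coe_lef hP hD hs, ih hs, map_smul]
    rcases Nat.eq_zero_or_pos s with rfl | h0
    · rw [if_pos rfl, add_zero, Nat.choose_zero_right, Nat.choose_zero_right, Nat.sub_zero,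
        Nat.sub_zero, pow_succ', Module.End.mul_apply]
    · rw [if_neg (by omega), ih (by omega)]
      obtain ⟨s, rfl⟩ : ∃ s', s = s' + 1 := ⟨s - 1, by omega⟩
      rw [Nat.add_sub_cancel, Nat.choose_succ_succ, show a + 1 - (s + 1) = a - s by omega]
      rcases Nat.lt_or_ge a (s + 1) with h1 | h1
      · rw [Nat.choose_eq_zero_of_lt h1, Nat.cast_zero, zero_smul, zero_add]
        congr 1
      · rw [← Module.End.mul_apply (lef W X D), ← pow_succ', show a - (s + 1) + 1 = a - s by omega,
          ← add_smul]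
        congr 1
        push_cast
        ring

lemma F_pow_inc (F : Module.End W.K (W.H X)) (c : ℕ) (x : W.H X) :
    (prodF W X h F ^ c) (inc W X h 0 x) = inc W X h 0 ((F ^ c) x) := by
  induction c with
  | zero => rfl
  | succ c ih =>
    rw [pow_succ', Module.End.mul_apply, ih, prodF_inc hP F (Nat.zero_le _), Nat.cast_zero,
      zero_mul, zero_smul, add_zero, pow_succ' F, Module.End.mul_apply]

/-- the weight operator minus the dimension of the projective space -/
lemma wt_inc_zero (x : W.H X) :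
    wt (W.isInternal (X.prod P)) (X.prod P).dim (inc W X h 0 x) =
      inc W X h 0 ((wt (W.isInternal X) X.dim - (P.dim : W.K) • 1) x) := by
  rw [wt_inc hP, LinearMap.sub_apply, map_sub, LinearMap.smul_apply, Module.End.one_apply, map_smul,
    Nat.cast_zero, mul_zero, zero_sub, neg_smul, sub_eq_add_neg]

omit hP in
lemma coe_zero_comm (hP : IsProjLike W P h) {A : Module.End W.K (W.H X)}
    {B : Module.End W.K (W.H (X.prod P))}
    (h1 : ∀ x, B (inc W X h 0 x) = inc W X h 0 (A x))
    (h2 : ∀ b, 0 < b → ∀ x, ∃ x', B (inc W X h b x) = inc W X h b x') (y : W.H (X.prod P)) :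
    A (coe W X h 0 y) = coe W X h 0 (B y) := by
  refine prod_induction hP (p := fun y => A (coe W X h 0 y) = coe W X h 0 (B y)) ?_ ?_ y
  · intro y y' hy hy'
    rw [map_add (coe W X h 0) y y', map_add A, hy, hy', map_add B, map_add (coe W X h 0)]
  · intro b _ x
    rcases Nat.eq_zero_or_pos b with rfl | h0
    · rw [coe_inc hP (Nat.zero_le _), if_pos rfl, h1, coe_inc hP (Nat.zero_le _), if_pos rfl]
    · obtain ⟨x', hx'⟩ := h2 b h0 x
      rw [hx', coe_inc hP (Nat.zero_le _), if_neg (by omega), coe_inc hP (Nat.zero_le _),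
        if_neg (by omega), map_zero]

lemma wt_coe_zero (y : W.H (X.prod P)) :
    (wt (W.isInternal X) X.dim - (P.dim : W.K) • 1) (coe W X h 0 y) =
      coe W X h 0 (wt (W.isInternal (X.prod P)) (X.prod P).dim y) := by
  refine coe_zero_comm hP (fun x => wt_inc_zero hP x) (fun b _ x => ?_) y
  exact ⟨wt (W.isInternal X) X.dim x + (2 * (b : W.K) - (P.dim : W.K)) • x, by
    rw [wt_inc hP, map_add, map_smul]⟩

/-- the product of the `(i + 1) (N - i)`, `i < j` -/
noncomputable def kappa (N j : ℕ) : ℚ := ∏ i ∈ range j, (((i : ℚ) + 1) * ((N : ℚ) - i))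

omit hP in
lemma kappa_ne {N j : ℕ} (hj : j ≤ N) : kappa N j ≠ 0 := by
  rw [kappa, Finset.prod_ne_zero_iff]
  intro i hi
  rw [Finset.mem_range] at hi
  apply mul_ne_zero
  · positivity
  · rw [sub_ne_zero]
    intro h0
    have : N = i := by exact_mod_cast h0
    omega

lemma coe_F_pow (F : Module.End W.K (W.H X)) (c : ℕ) : ∀ {j : ℕ}, j ≤ P.dim → ∀ x : W.H X,
    coe W X h 0 ((prodF W X h F ^ c) (inc W X h j x)) =
      (((c.choose j : ℚ) * kappa P.dim j : ℚ) : W.K) • (F ^ (c - j)) x := by
  induction c with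
  | zero =>
    intro j hj x
    rw [pow_zero, Module.End.one_apply, coe_inc hP (Nat.zero_le _), Nat.zero_sub, pow_zero,
      Module.End.one_apply]
    rcases Nat.eq_zero_or_pos j with rfl | h0
    · simp [kappa]
    · rw [if_neg (by omega), Nat.choose_eq_zero_of_lt h0]
      simp
  | succ c ih =>
    intro j hj x
    rw [pow_succ (prodF W X h F), Module.End.mul_apply, prodF_inc hP F hj, map_add, map_add, ih hj,
      map_smul, map_smul, ih (by omega)]
    rcases Nat.eq_zero_or_pos j with rfl | h0
    · rw [Nat.cast_zero, zero_mul, zero_smul, add_zero, Nat.choose_zero_right,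
        Nat.choose_zero_right, Nat.sub_zero, Nat.sub_zero, pow_succ F, Module.End.mul_apply]
    · obtain ⟨j, rfl⟩ : ∃ j', j = j' + 1 := ⟨j - 1, by omega⟩
      have h2 : kappa P.dim (j + 1) = kappa P.dim j * (((j : ℚ) + 1) * ((P.dim : ℚ) - j)) := by
        rw [kappa, kappa, Finset.prod_range_succ]
      rw [Nat.add_sub_cancel, Nat.choose_succ_succ, show c + 1 - (j + 1) = c - j by omega,
        smul_smul]
      rcases Nat.lt_or_ge c (j + 1) with h1 | h1
      · rw [Nat.choose_eq_zero_of_lt h1, h2]
        push_cast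
        rw [zero_mul, zero_smul, zero_add]
        congr 1
        ring
      · rw [← Module.End.mul_apply (F ^ (c - (j + 1))), ← pow_succ,
          show c - (j + 1) + 1 = c - j by omega, ← add_smul, h2]
        congr 1
        push_cast
        ring

/-- The first coefficient. -/
lemma coe_eval (hD : X.IsCyc 1 D) {T : Uni} {d : ℤ} (hT : T.Homogeneous d) {b c a : ℕ}
    (htop : T.Top b c) (ha : (a : ℤ) = c + d) (haP : P.dim = a) (F : Module.End W.K (W.H X)) :
    coe W X h a ∘ₗ T.eval (lef W (X.prod P) (sumDiv ops D h))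
      (wt (W.isInternal (X.prod P)) (X.prod P).dim) (prodF W X h F) ∘ₗ inc W X h 0 =
      ev (wt (W.isInternal X) X.dim) ((topPoly T c).comp (Polynomial.X - Polynomial.C (a : ℚ))) *
        F ^ c := by
  apply LinearMap.ext
  intro x
  rw [LinearMap.comp_apply, LinearMap.comp_apply, eval_apply, map_sum, ev_comp, ev_sub_nat,
    Module.End.mul_apply, topPoly, map_sum, LinearMap.sum_apply, Finset.sum_filter]
  refine Finset.sum_congr rfl fun m hm => ?_
  have h1 : (wt (W.isInternal (X.prod P)) (X.prod P).dim ^ m.2.1)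
      ((prodF W X h F ^ m.2.2) (inc W X h 0 x)) =
      inc W X h 0 (((wt (W.isInternal X) X.dim - (a : W.K) • 1) ^ m.2.1) ((F ^ m.2.2) x)) := by
    rw [F_pow_inc hP]
    have h2 := ev_intertwine (ι := inc W X h 0) (fun x => wt_inc_zero hP x)
      (Polynomial.X ^ m.2.1) ((F ^ m.2.2) x)
    rw [map_pow, ev_X, map_pow, ev_X, haP] at h2
    exact h2
  rw [map_smul, h1, coe_lef_pow hP hD _ (by omega)]
  have hd := hT m hm
  have hc := htop.1 m hm
  split_ifs with hmc
  · have e1 : m.1 = a := by omega
    rw [e1, Nat.choose_self, Nat.sub_self, pow_zero, Module.End.one_apply, Nat.cast_one, one_smul,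
      ev_monomial, LinearMap.smul_apply, hmc]
  · rw [Nat.choose_eq_zero_of_lt (by omega), Nat.cast_zero, zero_smul, smul_zero]

/-- The second coefficient. -/
lemma coe_ev_F (q : Polynomial ℚ) {c : ℕ} (hc : c ≤ P.dim) (F : Module.End W.K (W.H X)) :
    coe W X h 0 ∘ₗ (ev (wt (W.isInternal (X.prod P)) (X.prod P).dim) q * prodF W X h F ^ (c + 1)) ∘ₗ
      inc W X h c = ((((c + 1 : ℕ) : ℚ) * kappa P.dim c : ℚ) : W.K) •
      (ev (wt (W.isInternal X) X.dim) (q.comp (Polynomial.X - Polynomial.C (P.dim : ℚ))) * F) := by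
  apply LinearMap.ext
  intro x
  rw [LinearMap.comp_apply, LinearMap.comp_apply, Module.End.mul_apply,
    ← ev_intertwine (ι := coe W X h 0) (fun y => wt_coe_zero hP y), coe_F_pow hP F _ hc,
    LinearMap.smul_apply, Module.End.mul_apply, map_smul, ev_comp, ev_sub_nat,
    show c + 1 - c = 1 by omega, pow_one, Nat.choose_succ_self_right]

lemma coe_ev_zero (q : Polynomial ℚ) :
    coe W X h 0 ∘ₗ ev (wt (W.isInternal (X.prod P)) (X.prod P).dim) q ∘ₗ inc W X h 0 =
      ev (wt (W.isInternal X) X.dim) (q.comp (Polynomial.X - Polynomial.C (P.dim : ℚ))) := by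
  apply LinearMap.ext
  intro x
  rw [LinearMap.comp_apply, LinearMap.comp_apply,
    ← ev_intertwine (ι := coe W X h 0) (fun y => wt_coe_zero hP y), coe_inc hP (Nat.zero_le _),
    if_pos rfl, ev_comp, ev_sub_nat]

end

end Pool.Agent.R370.US
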