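import Pool.Agent.TH720.LB.Stm
import Pool.Agent.R370.US.ADefs

/-!
# Universal operators in the Lefschetz algebra: definitions
-/

open CategoryTheory AlgebraicGeometry

universe u v

namespace Pool.Agent.R370.US

open Pool.Agent.H914 Pool.Agent.TH720.LB VarClass Obj WeilCohomology

variable {k : Type u} [Field k] {𝒱 : VarClass k} {ops : CycleOps 𝒱}

/-- The cycle `z` on `X × X` induces the operator `φ` on `H(X)`. -/
def Induces (W : WeilCohomology.{u, v} ops) (X : 𝒱.Obj) (z : (X.prod X).Cycles)
    (φ : Module.End W.K (W.H X)) : Prop :=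
  W.corr (W.cl (X.prod X) z) = φ

/-- The operator `φ` on `H(X)` is induced by a cycle with rational coefficients of codimension
`dim X + d` on `X × X` (it is zero if this number is negative). -/
def RatAlg (W : WeilCohomology.{u, v} ops) (X : 𝒱.Obj) (d : ℤ) (φ : Module.End W.K (W.H X)) :
    Prop :=
  (∃ p : ℕ, (p : ℤ) = X.dim + d ∧ ∃ z, (X.prod X).IsCyc p z ∧ Induces W X z φ) ∨
    ((X.dim : ℤ) + d < 0 ∧ IsZeroOp φ)

/-- The operator `φ` on `H(X)` is a linear combination, with coefficients in the coefficient field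
of the cohomology theory, of operators induced by cycles of codimension `dim X + d` on `X × X`. -/
def SpanAlg (W : WeilCohomology.{u, v} ops) (X : 𝒱.Obj) (d : ℤ) (φ : Module.End W.K (W.H X)) :
    Prop :=
  InSpanOf (RatAlg W X d) φ

/-- The cup product with the class of `D`. -/
noncomputable def lef (W : WeilCohomology.{u, v} ops) (X : 𝒱.Obj) (D : X.Cycles) :
    Module.End W.K (W.H X) :=
  LinearMap.mulLeft W.K (W.cl X D)

/-- `(L, H, F)` is the `sl(2)`-triple of `(X, D)`: `L` is the cup product with the class of `D`. -/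
def TripleOf (W : WeilCohomology.{u, v} ops) (X : 𝒱.Obj) (D : X.Cycles)
    (H F : Module.End W.K (W.H X)) : Prop :=
  IsTriple (W.gr X) X.dim (lef W X D) H F

/-- There is exactly one `sl(2)`-triple of `(X, D)`. -/
def OneTriple (W : WeilCohomology.{u, v} ops) (X : 𝒱.Obj) (D : X.Cycles) : Prop :=
  HasOneTriple (W.gr X) X.dim (lef W X D)

/-- The operator `T(L, H, F)` of `(X, D)` is induced by a cycle with rational coefficients. -/
def RatOn (W : WeilCohomology.{u, v} ops) (T : Uni) (d : ℤ) (X : 𝒱.Obj) (D : X.Cycles) : Prop :=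
  ∀ H F, TripleOf W X D H F → RatAlg W X d (T.eval (lef W X D) H F)

/-- The operator `T(L, H, F)` of `(X, D)` is a combination of operators induced by cycles, with
coefficients in the coefficient field of the cohomology theory. -/
def SpanOn (W : WeilCohomology.{u, v} ops) (T : Uni) (d : ℤ) (X : 𝒱.Obj) (D : X.Cycles) : Prop :=
  ∀ H F, TripleOf W X D H F → SpanAlg W X d (T.eval (lef W X D) H F)

/-- The Künneth projectors of `X` are induced by cycles with rational coefficients. -/
def KunnethRat (W : WeilCohomology.{u, v} ops) (X : 𝒱.Obj) : Prop :=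
  ∀ i ≤ 2 * X.dim, ∃ Q, RatAlg W X 0 Q ∧ IsProjector (W.gr X) i Q

/-- The Künneth projectors of `X` are combinations of operators induced by cycles, with coefficients
in the coefficient field of the cohomology theory. -/
def KunnethSpan (W : WeilCohomology.{u, v} ops) (X : 𝒱.Obj) : Prop :=
  ∀ i ≤ 2 * X.dim, ∃ Q, SpanAlg W X 0 Q ∧ IsProjector (W.gr X) i Q

/-- The variety `(X × P N) × P M` with the divisor `D + h N + h M`. -/
noncomputable def twice (P : ℕ → 𝒱.Obj) (X : 𝒱.Obj) (N M : ℕ) : 𝒱.Obj :=
  (X.prod (P N)).prod (P M)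

/-- The divisor `D + h N + h M` on `(X × P N) × P M`. -/
noncomputable def twiceDiv (ops : CycleOps 𝒱) (P : ℕ → 𝒱.Obj) (h : ∀ m, (P m).Cycles) (X : 𝒱.Obj)
    (D : X.Cycles) (N M : ℕ) : (twice P X N M).Cycles :=
  sumDiv ops (sumDiv ops D (h N)) (h M)

/-- `c` is the greatest exponent of `f` in `T`, and `b` is the greatest exponent of `h` in the terms
`e ^ a h ^ b f ^ c` with this `c`. -/
def Uni.Top (T : Uni) (b c : ℕ) : Prop :=
  (∀ m ∈ T.support, m.2.2 ≤ c) ∧ (∀ m ∈ T.support, m.2.2 = c → m.2.1 ≤ b) ∧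
    ∃ m ∈ T.support, m.2.2 = c ∧ m.2.1 = b

end Pool.Agent.R370.US
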