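import Pool.Agent.R370.US.Main

/-!
# Universal operators: the classification
-/

open CategoryTheory AlgebraicGeometry Finset

universe u v

namespace Pool.Agent.R370.US

open Pool.Agent.H914 Pool.Agent.W534 Pool.Agent.TH720.LB VarClass Obj WeilCohomology

variable {k : Type u} [Field k] {𝒱 : VarClass k} {ops : CycleOps 𝒱}
  {W : WeilCohomology.{u, v} ops} {X Y Z : 𝒱.Obj} {D : X.Cycles}

lemma ratAlg_iff {d : ℤ} {φ : Module.End W.K (W.H X)} : RatAlg W X d φ ↔ QOp W X X d φ := Iff.rfl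

lemma spanAlg_iff {d : ℤ} {φ : Module.End W.K (W.H X)} : SpanAlg W X d φ ↔ φ ∈ KOp W X X d := by
  constructor
  · intro h
    have h1 : Submodule.span W.K {ψ : Module.End W.K (W.H X) | RatAlg W X d ψ} ≤ KOp W X X d := by
      rw [Submodule.span_le]
      intro ψ hψ
      exact QOp.kop (ratAlg_iff.1 hψ)
    exact h1 h
  · intro h
    have h1 : KOp W X X d ≤ Submodule.span W.K {ψ : Module.End W.K (W.H X) | RatAlg W X d ψ} := by
      refine Submodule.span_mono ?_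
      rintro ψ ⟨p, hp, z, hz, hψ⟩
      exact Or.inl ⟨p, hp, z, hz, hψ⟩
    exact h1 h

/-- Conjecture B from the lowering operator. -/
lemma lefB_of_F (hD : X.IsCyc 1 D) (hHL : HardLefschetz W X D) {H F : Module.End W.K (W.H X)}
    (ht : TripleOf W X D H F) (hF : F ∈ KOp W X X (-1)) : LefschetzB W X D := by
  apply lefschetzB_of_inj hD hHL
  intro c hc
  refine ⟨F ^ c, ?_, ?_⟩
  · exact KOp.cast ((opSys_K W).opAlg X |>.pow hF c) (by ring)
  · exact F_pow_inj (W.isInternal X) (hom_lef hD) (hbdX W X) hHL ht hc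

lemma exists_top {T : Uni} (hT : T ≠ 0) : ∃ b c, T.Top b c := by
  have h1 : T.support.Nonempty := Finsupp.support_nonempty_iff.2 hT
  obtain ⟨m₀, hm₀, hmax⟩ := T.support.exists_max_image (fun m => m.2.2) h1
  have h2 : (T.support.filter fun m => m.2.2 = m₀.2.2).Nonempty :=
    ⟨m₀, Finset.mem_filter.2 ⟨hm₀, rfl⟩⟩
  obtain ⟨m₁, hm₁, hmax1⟩ := (T.support.filter fun m => m.2.2 = m₀.2.2).exists_max_image
    (fun m => m.2.1) h2
  rw [Finset.mem_filter] at hm₁
  exact ⟨m₁.2.1, m₀.2.2, hmax, fun m hm hmc => hmax1 m (Finset.mem_filter.2 ⟨hm, hmc⟩), m₁, hm₁.1,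
    hm₁.2, rfl⟩

/-- the exponent of `e` in the top terms -/
lemma top_exp {T : Uni} {d : ℤ} (hT : T.Homogeneous d) {b c : ℕ} (htop : T.Top b c) :
    ∃ a : ℕ, (a : ℤ) = c + d := by
  obtain ⟨_, _, m, hm, hmc, _⟩ := htop
  exact ⟨m.1, by have := hT m hm; omega⟩

section

variable {P : ℕ → 𝒱.Obj} {h : ∀ m, (P m).Cycles} {Pol : ∀ X : 𝒱.Obj, X.Cycles → Prop}
  (hdim : ∀ m, (P m).dim = m) (hproj : ∀ m, IsProjLike W (P m) (h m))
  (hPol : IsPolClass W P h Pol)

lemma pol_twice (hPol : IsPolClass W P h Pol) (hX : Pol X D) (N a : ℕ) :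
    Pol (twice P X N a) (twiceDiv ops P h X D N a) := hPol.prod a (hPol.prod N hX)

include hdim hproj hPol

/-- Conjecture B for one variety. -/
theorem lefB_of_T (hX : Pol X D) {T : Uni} {d : ℤ} (hT : T.Homogeneous d) {b c a : ℕ}
    (htop : T.Top b c) (hc : 1 ≤ c) (ha : (a : ℤ) = c + d)
    (hon : ∀ N, c ≤ N + 1 → N + 1 ≤ c + b →
      SpanOn W T d (twice P X N a) (twiceDiv ops P h X D N a)) : LefschetzB W X D := by
  obtain ⟨c, rfl⟩ : ∃ c', c = c' + 1 := ⟨c - 1, by omega⟩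
  obtain ⟨H, F, ht⟩ := trip_exists (W := W) (hPol.div hX) (hPol.hard hX)
  refine lefB_of_F (hPol.div hX) (hPol.hard hX) ht ?_
  refine F_of_T hdim hproj hPol (opSys_K W) hX hT htop (by push_cast at ha ⊢; exact ha) ?_ ht
  intro N hN hN' H' F' ht'
  exact spanAlg_iff.1 (hon N (by omega) (by omega) H' F' ht')

/-- The Künneth projectors of one variety. -/
theorem kunneth_of_T (hX : Pol X D) {T : Uni} {d : ℤ} (hT : T.Homogeneous d) {b a : ℕ}
    (htop : T.Top b 0) (hb : 1 ≤ b) (ha : (a : ℤ) = d)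
    (hon : ∀ N ≤ b, SpanOn W T d (twice P X N a) (twiceDiv ops P h X D N a)) :
    KunnethSpan W X := by
  obtain ⟨H, F, ht⟩ := trip_exists (W := W) (hPol.div hX) (hPol.hard hX)
  have h1 := H_of_T hdim hproj hPol (opSys_K W) hX hT htop hb ha (fun N hN H' F' ht' =>
    spanAlg_iff.1 (hon N hN H' F' ht')) ht
  intro i hi
  obtain ⟨Q, hQ, hQp⟩ := proj_of_H (opSys_K W) ht h1 i hi
  exact ⟨Q, spanAlg_iff.2 hQ, hQp⟩

theorem kunneth_of_T_rat (hX : Pol X D) {T : Uni} {d : ℤ} (hT : T.Homogeneous d) {b a : ℕ}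
    (htop : T.Top b 0) (hb : 1 ≤ b) (ha : (a : ℤ) = d)
    (hon : ∀ N ≤ b, RatOn W T d (twice P X N a) (twiceDiv ops P h X D N a)) :
    KunnethRat W X := by
  obtain ⟨H, F, ht⟩ := trip_exists (W := W) (hPol.div hX) (hPol.hard hX)
  have h1 := H_of_T hdim hproj hPol (opSys_Q W) hX hT htop hb ha (fun N hN H' F' ht' =>
    ratAlg_iff.1 (hon N hN H' F' ht')) ht
  intro i hi
  obtain ⟨Q, hQ, hQp⟩ := proj_of_H (opSys_Q W) ht h1 i hi
  exact ⟨Q, ratAlg_iff.2 hQ, hQp⟩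

omit hdim hproj in
lemma ratOn_of_lefB {T : Uni} {d : ℤ} (hT : T.Homogeneous d) (hX : Pol X D)
    (hB : LefschetzB W X D) : RatOn W T d X D := by
  intro H F ht
  obtain ⟨Φ, hΦ, hLam⟩ := lefschetzB_iff_rop.1 hB
  obtain ⟨h1, h2⟩ := F_of_lam (opSys_Q W) (hPol.div hX) (hPol.hard hX) (rop_iff.1 hΦ) hLam ht
  exact T_mem (opSys_Q W) (hPol.div hX) hT (fun _ => h1) (fun _ => h2)

omit hdim hproj in
/-- The first class. -/
theorem ratOn_of_InE {T : Uni} {d : ℤ} (hT : T.Homogeneous d) (hE : T.InE) (hX : Pol X D) :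
    RatOn W T d X D := by
  intro H F ht
  refine T_mem (opSys_Q W) (hPol.div hX) hT ?_ ?_
  · rintro ⟨m, hm, h0⟩; exact absurd (hE m hm).1 h0
  · rintro ⟨m, hm, h0⟩; exact absurd (hE m hm).2 h0

omit hdim hproj in
lemma ratOn_of_kunneth {T : Uni} {d : ℤ} (hT : T.Homogeneous d) (hB : T.InB) (hX : Pol X D)
    (hK : KunnethRat W X) : RatOn W T d X D := by
  intro H F ht
  refine T_mem (opSys_Q W) (hPol.div hX) hT (fun _ => ?_) ?_
  · exact H_of_proj (opSys_Q W) ht hK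
  · rintro ⟨m, hm, h0⟩; exact absurd (hB m hm) h0

omit hdim hproj in
lemma spanOn_of_kunneth {T : Uni} {d : ℤ} (hT : T.Homogeneous d) (hB : T.InB) (hX : Pol X D)
    (hK : KunnethSpan W X) : SpanOn W T d X D := by
  intro H F ht
  rw [spanAlg_iff]
  refine T_mem (opSys_K W) (hPol.div hX) hT (fun _ => ?_) ?_
  · refine H_of_proj (opSys_K W) ht fun i hi => ?_
    obtain ⟨Q, hQ, hQp⟩ := hK i hi
    exact ⟨Q, spanAlg_iff.1 hQ, hQp⟩
  · rintro ⟨m, hm, h0⟩; exact absurd (hB m hm) h0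

/-- The second class. -/
theorem class_two {T : Uni} {d : ℤ} (hT : T.Homogeneous d) (hB : T.InB) (hE : ¬ T.InE) :
    ((∀ (X : 𝒱.Obj) (D : X.Cycles), Pol X D → SpanOn W T d X D) ↔
      ∀ (X : 𝒱.Obj) (D : X.Cycles), Pol X D → KunnethSpan W X) ∧
    ((∀ (X : 𝒱.Obj) (D : X.Cycles), Pol X D → RatOn W T d X D) ↔
      ∀ (X : 𝒱.Obj) (D : X.Cycles), Pol X D → KunnethRat W X) := by
  have hT0 : T ≠ 0 := by
    rintro rfl
    exact hE fun m hm => absurd hm (by simp)
  obtain ⟨b, c, htop⟩ := exists_top hT0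
  obtain ⟨m, hm, hmc, hmb⟩ := htop.2.2
  have hc : c = 0 := by rw [← hmc]; exact hB m hm
  subst hc
  obtain ⟨a, ha⟩ := top_exp hT htop
  have ha' : (a : ℤ) = d := by rw [ha]; simp
  have hb : 1 ≤ b := by
    by_contra h0
    apply hE
    intro m' hm'
    have h1 := htop.2.1 m' hm' (hB m' hm')
    exact ⟨by omega, hB m' hm'⟩
  constructor
  · constructor
    · intro h1 X D hX
      exact kunneth_of_T hdim hproj hPol hX hT htop hb ha' fun N _ =>
        h1 _ _ (pol_twice hPol hX N a)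
    · intro h1 X D hX
      exact spanOn_of_kunneth hPol hT hB hX (h1 X D hX)
  · constructor
    · intro h1 X D hX
      exact kunneth_of_T_rat hdim hproj hPol hX hT htop hb ha' fun N _ =>
        h1 _ _ (pol_twice hPol hX N a)
    · intro h1 X D hX
      exact ratOn_of_kunneth hPol hT hB hX (h1 X D hX)

/-- The third class. -/
theorem class_three {T : Uni} {d : ℤ} (hT : T.Homogeneous d) (hB : ¬ T.InB) :
    List.TFAE [∀ (X : 𝒱.Obj) (D : X.Cycles), Pol X D → SpanOn W T d X D,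
      ∀ (X : 𝒱.Obj) (D : X.Cycles), Pol X D → RatOn W T d X D,
      ∀ (X : 𝒱.Obj) (D : X.Cycles), Pol X D → LefschetzB W X D] := by
  have hT0 : T ≠ 0 := by
    rintro rfl
    exact hB fun m hm => absurd hm (by simp)
  obtain ⟨b, c, htop⟩ := exists_top hT0
  obtain ⟨a, ha⟩ := top_exp hT htop
  have hc : 1 ≤ c := by
    by_contra h0
    apply hB
    intro m hm
    have := htop.1 m hm
    omega
  tfae_have 1 → 3 := by
    intro h1 X D hX
    exact lefB_of_T hdim hproj hPol hX hT htop hc ha fun N _ _ => h1 _ _ (pol_twice hPol hX N a)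
  tfae_have 3 → 2 := by
    intro h1 X D hX
    exact ratOn_of_lefB hPol hT hX (h1 X D hX)
  tfae_have 2 → 1 := by
    intro h1 X D hX H F ht
    exact spanAlg_iff.2 (QOp.kop (ratAlg_iff.1 (h1 X D hX H F ht)))
  tfae_finish

end

end Pool.Agent.R370.US
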