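import Pool.Agent.R370.US.Coef
import Pool.Agent.H914R2.ThetaB

/-!
# Universal operators: the theorems
-/

open CategoryTheory AlgebraicGeometry Finset

universe u v

namespace Pool.Agent.R370.US

open Pool.Agent.H914 Pool.Agent.W534 Pool.Agent.TH720.LB VarClass Obj WeilCohomology

variable {k : Type u} [Field k] {𝒱 : VarClass k} {ops : CycleOps 𝒱}
  {W : WeilCohomology.{u, v} ops} {X Y Z : 𝒱.Obj} {D : X.Cycles}

/-- A class of homogeneous operators between the cohomologies of varieties. -/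
structure OpSys (W : WeilCohomology.{u, v} ops)
    (S : ∀ X Y : 𝒱.Obj, ℤ → (W.H X →ₗ[W.K] W.H Y) → Prop) : Prop where
  base : ∀ {X Y : 𝒱.Obj} {d : ℤ} {φ : W.H X →ₗ[W.K] W.H Y}, QOp W X Y d φ → S X Y d φ
  toK : ∀ {X Y : 𝒱.Obj} {d : ℤ} {φ : W.H X →ₗ[W.K] W.H Y}, S X Y d φ → φ ∈ KOp W X Y d
  comp : ∀ {X Y Z : 𝒱.Obj} {d e : ℤ} {φ : W.H X →ₗ[W.K] W.H Y} {ψ : W.H Y →ₗ[W.K] W.H Z},
    S Y Z e ψ → S X Y d φ → S X Z (d + e) (ψ ∘ₗ φ)
  add : ∀ {X Y : 𝒱.Obj} {d : ℤ} {φ ψ : W.H X →ₗ[W.K] W.H Y}, S X Y d φ → S X Y d ψ →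
    S X Y d (φ + ψ)
  smul : ∀ (q : ℚ) {X Y : 𝒱.Obj} {d : ℤ} {φ : W.H X →ₗ[W.K] W.H Y}, S X Y d φ →
    S X Y d ((q : W.K) • φ)

lemma opSys_Q (W : WeilCohomology.{u, v} ops) : OpSys W (fun X Y d φ => QOp W X Y d φ) where
  base := fun h => h
  toK := fun h => h.kop
  comp := fun h h' => h.comp h'
  add := fun h h' => h.add h'
  smul := fun q {_ _ _ _} h => h.smul q

lemma opSys_K (W : WeilCohomology.{u, v} ops) : OpSys W (fun X Y d φ => φ ∈ KOp W X Y d) where
  base := fun h => h.kop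
  toK := fun h => h
  comp := fun h h' => KOp.comp h h'
  add := fun h h' => Submodule.add_mem _ h h'
  smul := fun _ {_ _ _ _} h => Submodule.smul_mem _ _ h

section

variable {S : ∀ X Y : 𝒱.Obj, ℤ → (W.H X →ₗ[W.K] W.H Y) → Prop} (hS : OpSys W S)
include hS

lemma OpSys.cast {d e : ℤ} {φ : W.H X →ₗ[W.K] W.H Y} (h : S X Y d φ) (hde : d = e) :
    S X Y e φ := hde ▸ h

lemma OpSys.opAlg (X : 𝒱.Obj) :
    OpAlg (W.gr X) (fun d (y : Module.End W.K (W.H X)) => S X X d y) where
  one := hS.base qop_id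
  zero d := hS.base (QOp.zero d)
  add := fun h h' => hS.add h h'
  smul := fun q _ _ h => hS.smul q h
  mul := fun h h' => hS.cast (hS.comp h h') (add_comm _ _)
  hom := fun h => KOp.isHom (hS.toK h)

/-- The coefficients of an operator in the class are in the class. -/
lemma OpSys.coef {P : 𝒱.Obj} {h : P.Cycles} (hP : IsProjLike W P h) {d : ℤ}
    {φ : Module.End W.K (W.H (X.prod P))} (hφ : S (X.prod P) (X.prod P) d φ) {s : ℕ}
    (hs : s ≤ P.dim) (j : ℕ) : S X X (j + d - s) (coe W X h s ∘ₗ φ ∘ₗ inc W X h j) :=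
  hS.cast (hS.comp (hS.base (qop_coe hP hs)) (hS.comp hφ (hS.base (qop_inc hP j)))) (by ring)

/-- The operators `q(H) F` in the class. -/
noncomputable def polyF (X : 𝒱.Obj) (H F : Module.End W.K (W.H X)) (d : ℤ) :
    Submodule ℚ (Polynomial ℚ) where
  carrier := {q | S X X d (ev H q * F)}
  add_mem' := by
    intro q q' hq hq'
    change S X X d (ev H (q + q') * F)
    rw [map_add, add_mul]
    exact hS.add hq hq'
  zero_mem' := by
    change S X X d (ev H 0 * F)
    rw [map_zero, zero_mul]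
    exact hS.base (QOp.zero d)
  smul_mem' := by
    intro c q hq
    change S X X d (ev H (c • q) * F)
    rw [ev_smul, smul_mul_assoc]
    exact hS.smul c hq

end

section main

variable {P : ℕ → 𝒱.Obj} {h : ∀ m, (P m).Cycles} {Pol : ∀ X : 𝒱.Obj, X.Cycles → Prop}
  (hdim : ∀ m, (P m).dim = m) (hproj : ∀ m, IsProjLike W (P m) (h m))
  (hPol : IsPolClass W P h Pol)
  {S : ∀ X Y : 𝒱.Obj, ℤ → (W.H X →ₗ[W.K] W.H Y) → Prop} (hS : OpSys W S)

include hdim hproj hPol hS

/-- The first step: the operator `p(H - a) F ^ c` on `X × P N`. -/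
lemma step_one (hX : Pol X D) {T : Uni} {d : ℤ} (hT : T.Homogeneous d) {b c a : ℕ}
    (htop : T.Top b c) (ha : (a : ℤ) = c + d) {N : ℕ}
    (hon : ∀ H F, TripleOf W (twice P X N a) (twiceDiv ops P h X D N a) H F →
      S _ _ d (T.eval (lef W _ (twiceDiv ops P h X D N a)) H F))
    {H F : Module.End W.K (W.H X)} (ht : TripleOf W X D H F) :
    S (X.prod (P N)) (X.prod (P N)) (-c)
      (ev (wt (W.isInternal (X.prod (P N))) (X.prod (P N)).dim)
        ((topPoly T c).comp (Polynomial.X - Polynomial.C (a : ℚ))) *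
        prodF W X (h N) F ^ c) := by
  have hX' := hPol.prod N hX
  have ht1 := prod_triple (hproj N) (hPol.div hX) ht
  have ht2 := prod_triple (hproj a) (hPol.div hX') ht1
  have h1 := hon _ _ ht2
  have h2 := hS.coef (hproj a) h1 (s := a) (by rw [hdim]) 0
  rw [← coe_eval (hproj a) (hPol.div hX') hT htop ha (hdim a)]
  exact hS.cast h2 (by push_cast; omega)

/-- If the operator `T` is in the class for the varieties `(X × P N) × P a` then the lowering
operator of `X` is. -/
theorem F_of_T (hX : Pol X D) {T : Uni} {d : ℤ} (hT : T.Homogeneous d) {b c a : ℕ}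
    (htop : T.Top b (c + 1)) (ha : (a : ℤ) = (c + 1 : ℕ) + d)
    (hon : ∀ N, c ≤ N → N ≤ c + b → ∀ H F,
      TripleOf W (twice P X N a) (twiceDiv ops P h X D N a) H F →
      S _ _ d (T.eval (lef W _ (twiceDiv ops P h X D N a)) H F))
    {H F : Module.End W.K (W.H X)} (ht : TripleOf W X D H F) : S X X (-1) F := by
  obtain ⟨hp0, hpb⟩ := natDegree_topPoly hT htop
  have h1 : (1 : Polynomial ℚ) ∈ polyF hS X H F (-1) := by
    refine one_mem_of_shifts _ _ (topPoly T (c + 1)) hp0 le_rfl (c + a) fun R hR hR' => ?_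
    obtain ⟨N, rfl⟩ : ∃ N, R = N + a := ⟨R - a, by omega⟩
    have h2 := step_one hdim hproj hPol hS hX hT htop ha (hon N (by omega) (by omega)) ht
    have h3 := hS.coef (hproj N) h2 (s := 0) (Nat.zero_le _) c
    have hcN : c ≤ (P N).dim := by rw [hdim]; omega
    rw [coe_ev_F (hproj N) _ hcN, comp_shift, hdim] at h3
    have h4 := hS.smul ((((c + 1 : ℕ) : ℚ) * kappa N c)⁻¹) h3
    rw [smul_smul, ← Rat.cast_mul, inv_mul_cancel₀ (mul_ne_zero (by positivity)
      (kappa_ne (by omega))), Rat.cast_one, one_smul, ← trip_wt ht] at h4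
    change S X X (-1) _
    rw [Nat.cast_add, add_comm (N : ℚ)]
    exact hS.cast h4 (by push_cast; ring)
  have h5 : S X X (-1) (ev H 1 * F) := h1
  rwa [map_one, one_mul] at h5

/-- If the operator `T` in `U(b)` is in the class for the varieties `(X × P N) × P a` then the
weight operator of `X` is. -/
theorem H_of_T (hX : Pol X D) {T : Uni} {d : ℤ} (hT : T.Homogeneous d) {b a : ℕ}
    (htop : T.Top b 0) (hb : 1 ≤ b) (ha : (a : ℤ) = d)
    (hon : ∀ N ≤ b, ∀ H F,
      TripleOf W (twice P X N a) (twiceDiv ops P h X D N a) H F →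
      S _ _ d (T.eval (lef W _ (twiceDiv ops P h X D N a)) H F))
    {H F : Module.End W.K (W.H X)} (ht : TripleOf W X D H F) : S X X 0 H := by
  obtain ⟨hp0, hpb⟩ := natDegree_topPoly hT htop
  have h1 : (Polynomial.X : Polynomial ℚ) ∈ polyF hS X H 1 0 := by
    refine X_mem_of_shifts _ _ (topPoly T 0) (by omega) le_rfl a fun R hR hR' => ?_
    obtain ⟨N, rfl⟩ : ∃ N, R = N + a := ⟨R - a, by omega⟩
    have h2 := step_one hdim hproj hPol hS hX hT htop (a := a) (by simpa using ha)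
      (hon N (by omega)) ht
    rw [pow_zero, mul_one] at h2
    have h3 := hS.coef (hproj N) h2 (s := 0) (Nat.zero_le _) 0
    rw [coe_ev_zero (hproj N), comp_shift, hdim, ← trip_wt ht] at h3
    change S X X 0 _
    rw [mul_one, Nat.cast_add, add_comm (N : ℚ)]
    exact hS.cast h3 (by simp)
  have h5 : S X X 0 (ev H Polynomial.X * 1) := h1
  rwa [ev_X, mul_one] at h5

end main

section conv

variable {S : ∀ X Y : 𝒱.Obj, ℤ → (W.H X →ₗ[W.K] W.H Y) → Prop} (hS : OpSys W S)
include hS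

/-- The operator `T` is in the class if `H` and `F` are. -/
lemma T_mem (hD : X.IsCyc 1 D) {T : Uni} {d : ℤ} (hT : T.Homogeneous d)
    {H F : Module.End W.K (W.H X)} (hH : (∃ m ∈ T.support, m.2.1 ≠ 0) → S X X 0 H)
    (hF : (∃ m ∈ T.support, m.2.2 ≠ 0) → S X X (-1) F) : S X X d (T.eval (lef W X D) H F) := by
  have hR := hS.opAlg X
  have hL : S X X 1 (lef W X D) := hS.base (qop_mul hD)
  rw [Uni.eval, Finsupp.sum]
  refine hR.sum (y := fun m => ((T m : ℚ) : W.K) • (lef W X D ^ m.1 * H ^ m.2.1 * F ^ m.2.2)) ?_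
  intro m hm
  refine hR.smul _ ?_
  have h1 : S X X (m.1 * 1) (lef W X D ^ m.1) := hR.pow hL m.1
  have h2 : S X X 0 (H ^ m.2.1) := by
    by_cases h0 : m.2.1 = 0
    · rw [h0, pow_zero]; exact hR.one
    · exact hS.cast (hR.pow (hH ⟨m, hm, h0⟩) m.2.1) (by ring)
  have h3 : S X X (m.2.2 * (-1)) (F ^ m.2.2) := by
    by_cases h0 : m.2.2 = 0
    · rw [h0, pow_zero]; exact hS.cast hR.one (by simp)
    · exact hR.pow (hF ⟨m, hm, h0⟩) m.2.2
  exact hS.cast (hR.mul (hR.mul h1 h2) h3) (by have := hT m hm; omega)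

/-- The projectors are polynomials in the weight operator. -/
lemma proj_of_H {H F : Module.End W.K (W.H X)} (ht : TripleOf W X D H F) (hH : S X X 0 H) :
    ∀ i ≤ 2 * X.dim, ∃ Q, S X X 0 Q ∧ IsProjector (W.gr X) i Q := by
  intro i hi
  have hR := hS.opAlg X
  refine ⟨proj (W.isInternal X) i, ?_, ?_⟩
  · have h3 := hR.ev hH (herm X.dim 1 i)
    rwa [trip_wt ht, ev_wt_herm (W.isInternal X) (hbdX W X) le_rfl
      (Finset.mem_range.2 (by omega))] at h3
  · intro j a ha
    split_ifs with hj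
    · subst hj; exact proj_same _ ha
    · exact proj_ne _ ha (Ne.symm (Ne.symm hj))

/-- The weight operator is a combination of the projectors. -/
lemma H_of_proj {H F : Module.End W.K (W.H X)} (ht : TripleOf W X D H F)
    (hK : ∀ i ≤ 2 * X.dim, ∃ Q, S X X 0 Q ∧ IsProjector (W.gr X) i Q) : S X X 0 H := by
  have hR := hS.opAlg X
  have h0 : ∀ i, ∃ Q, S X X 0 Q ∧ (i ≤ 2 * X.dim → IsProjector (W.gr X) i Q) := by
    intro i
    by_cases hi : i ≤ 2 * X.dim
    · obtain ⟨Q, h1, h2⟩ := hK i hi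
      exact ⟨Q, h1, fun _ => h2⟩
    · exact ⟨0, hR.zero 0, fun h => absurd h hi⟩
  choose Q hQ hQp using h0
  have h1 : H = ∑ i ∈ range (2 * X.dim + 1), (((i : ℚ) - X.dim : ℚ) : W.K) • Q i := by
    apply gr_ext (W.isInternal X)
    intro j a ha
    rw [ht.weight j a ha, LinearMap.sum_apply]
    by_cases hj : j ≤ 2 * X.dim
    · rw [Finset.sum_eq_single j]
      · rw [LinearMap.smul_apply, hQp j hj j a ha, if_pos rfl]
        push_cast
        rfl
      · intro i hi hij
        rw [LinearMap.smul_apply, hQp i (by simp at hi; omega) j a ha, if_neg (Ne.symm hij),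
          smul_zero]
      · intro h'; exact absurd (Finset.mem_range.2 (by omega)) h'
    · rw [W.gr_eq_bot X j (by omega)] at ha
      rw [(Submodule.mem_bot _).1 ha, smul_zero]
      symm
      apply Finset.sum_eq_zero
      intro i _
      rw [map_zero]
  rw [h1]
  exact hR.sum fun i _ => hR.smul _ (hQ i)

/-- The lowering operator is in the class if the Lambda operator is. -/
lemma F_of_lam (hD : X.IsCyc 1 D) (hHL : HardLefschetz W X D) {Φ : Module.End W.K (W.H X)}
    (hΦ : S X X (-1) Φ) (hLam : IsLam (W.gr X) X.dim (lef W X D) Φ)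
    {H F : Module.End W.K (W.H X)} (ht : TripleOf W X D H F) : S X X 0 H ∧ S X X (-1) F := by
  have hR := hS.opAlg X
  have hL : S X X 1 (lef W X D) := hS.base (qop_mul hD)
  have hI := W.isInternal X
  have hproj : ∀ i, S X X 0 (proj hI i) := fun i =>
    hR.proj_mem hI (hbdX W X) hL hHL hΦ hLam i
  constructor
  · have h1 := sum_comm_eq_wt hI (hom_lef hD) (hbdX W X) hHL hLam
    rw [trip_wt ht, ← h1]
    apply hR.sum
    intro m _
    apply hR.sub
    · exact hS.cast (hR.mul (hR.pow hL (m + 1)) (hR.pow hΦ (m + 1))) (by push_cast; ring)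
    · exact hS.cast (hR.mul (hR.pow hΦ (m + 1)) (hR.pow hL (m + 1))) (by push_cast; ring)
  · have hlam : S X X (-1) (lamF hI X.dim (lef W X D) Φ) := by
      rw [lamF]
      refine hR.sum fun i _ => hR.sum fun j _ => hR.smul _ ?_
      have h1 : S X X 0 (1 - lef W X D * Φ) :=
        hR.sub hR.one (hS.cast (hR.mul hL hΦ) (by ring))
      have h2 : S X X (j * (-1)) (Φ ^ j) := hR.pow hΦ j
      have h3 : S X X (j * 1) (lef W X D ^ j) := hR.pow hL j
      have h4 := hR.mul h3 (hR.mul (hR.mul h1 (hproj i)) h2)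
      exact hS.cast (hR.mul hΦ h4) (by ring)
    have h1 : F = lamF hI X.dim (lef W X D) Φ := by
      have h2 : IsHom (W.gr X) (-2) (lamF hI X.dim (lef W X D) Φ) := by
        have := hR.hom hlam
        simpa using this
      apply lowering_unique hI (hom_lef hD) (hbdX W X) hHL (trip_hom ht) h2
      rw [ht.comm, trip_wt ht, comm_of_val hI (hom_lef hD) (hbdX W X) hHL
        (lamF_val hI (hom_lef hD) hLam)]
    rw [h1]
    exact hlam

end conv

end Pool.Agent.R370.US
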