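import Pool.Agent.R370.US.Alg
import Pool.Agent.R370.US.Defs
import Pool.Agent.TH720.LB.Prod

/-!
# The `sl(2)`-triple of the product with a projective space
-/

open CategoryTheory AlgebraicGeometry Finset

universe u v

namespace Pool.Agent.R370.US

open Pool.Agent.H914 Pool.Agent.W534 Pool.Agent.TH720.LB VarClass Obj WeilCohomology

variable {k : Type u} [Field k] {𝒱 : VarClass k} {ops : CycleOps 𝒱}
  {W : WeilCohomology.{u, v} ops} {X Y Z P : 𝒱.Obj} {D : X.Cycles} {h : P.Cycles}

lemma hbdX (W : WeilCohomology.{u, v} ops) (X : 𝒱.Obj) (i : ℕ) (hi : 2 * X.dim + 1 ≤ i) :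
    W.gr X i = ⊥ := W.gr_eq_bot X i (by omega)

lemma hom_lef (hD : X.IsCyc 1 D) : IsHom (W.gr X) 2 (lef W X D) := by
  have h1 : IsHom (W.gr X) 2 (LinearMap.mulLeft W.K (W.cl X D)) := by
    simpa using rop_opAlg.hom (rop_mulLeft (W := W) hD)
  exact h1

section triple

variable (hD : X.IsCyc 1 D) (hHL : HardLefschetz W X D)
include hD hHL

lemma trip_unique {H F H' F' : Module.End W.K (W.H X)} (ht : TripleOf W X D H F)
    (ht' : TripleOf W X D H' F') : H = H' ∧ F = F' :=
  triple_unique (W.isInternal X) (hom_lef hD) (hbdX W X) hHL ht ht'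

lemma trip_exists : ∃ H F, TripleOf W X D H F :=
  exists_triple (W.isInternal X) (hom_lef hD) (hbdX W X) hHL

lemma oneTriple : OneTriple W X D := by
  obtain ⟨H, F, ht⟩ := trip_exists (W := W) hD hHL
  refine ⟨(H, F), ht, ?_⟩
  rintro ⟨H', F'⟩ ht'
  obtain ⟨h1, h2⟩ := trip_unique hD hHL ht' ht
  exact Prod.ext h1 h2

end triple

lemma trip_wt {H F : Module.End W.K (W.H X)} (ht : TripleOf W X D H F) :
    H = wt (W.isInternal X) X.dim := isWeight_eq (W.isInternal X) ht.weight

lemma trip_hom {H F : Module.End W.K (W.H X)} (ht : TripleOf W X D H F) :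
    IsHom (W.gr X) (-2) F := isLowering_iff.1 ht.lowering

/-- The lowering operator of the product. -/
noncomputable def prodF (W : WeilCohomology.{u, v} ops) (X : 𝒱.Obj) {P : 𝒱.Obj} (h : P.Cycles)
    (F : Module.End W.K (W.H X)) : Module.End W.K (W.H (X.prod P)) :=
  ∑ a ∈ range (P.dim + 1), (inc W X h a ∘ₗ F ∘ₗ coe W X h a +
    ((a : W.K) * ((P.dim : W.K) - a + 1)) • (inc W X h (a - 1) ∘ₗ coe W X h a))

section

variable (hP : IsProjLike W P h)
include hP

lemma prodF_inc (F : Module.End W.K (W.H X)) {b : ℕ} (hb : b ≤ P.dim) (x : W.H X) :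
    prodF W X h F (inc W X h b x) = inc W X h b (F x) +
      ((b : W.K) * ((P.dim : W.K) - b + 1)) • inc W X h (b - 1) x := by
  rw [prodF, LinearMap.sum_apply, Finset.sum_eq_single b]
  · simp only [LinearMap.add_apply, LinearMap.comp_apply, LinearMap.smul_apply]
    rw [coe_inc hP hb, if_pos rfl]
  · intro a ha hab
    have ha' : a ≤ P.dim := by simp at ha; omega
    simp only [LinearMap.add_apply, LinearMap.comp_apply, LinearMap.smul_apply]
    rw [coe_inc hP ha', if_neg hab, map_zero, map_zero, map_zero, smul_zero, add_zero]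
  · intro h'; exact absurd (Finset.mem_range.2 (by omega)) h'

/-- the weight operator on the product -/
lemma wt_inc {b : ℕ} (x : W.H X) :
    wt (W.isInternal (X.prod P)) (X.prod P).dim (inc W X h b x) =
      inc W X h b (wt (W.isInternal X) X.dim x) +
        (2 * (b : W.K) - (P.dim : W.K)) • inc W X h b x := by
  refine gr_induction (W.isInternal X) (p := fun x =>
    wt (W.isInternal (X.prod P)) (X.prod P).dim (inc W X h b x) =
      inc W X h b (wt (W.isInternal X) X.dim x) +
        (2 * (b : W.K) - (P.dim : W.K)) • inc W X h b x) ?_ ?_ x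
  · intro i a ha
    have h1 : inc W X h b a ∈ W.gr (X.prod P) (i + 2 * b) :=
      qop_mem (qop_inc hP b) ha (by push_cast; ring)
    rw [wt_isWeight (W.isInternal X) i a ha, wt_isWeight (W.isInternal (X.prod P)) _ _ h1,
      map_smul, ← add_smul, dim_prod]
    congr 1
    push_cast
    ring
  · intro a b ha hb
    simp only [map_add, smul_add, ha, hb]
    abel

lemma coe_zero_of {a : ℕ} (ha : 0 < a) (x : W.H X) : coe W X h 0 (inc W X h a x) = 0 := by
  rw [coe_inc hP (Nat.zero_le _), if_neg (by omega)]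

lemma hom_inc (a : ℕ) (i : ℤ) (x : W.H X) (hx : x ∈ grZ (W.gr X) i) :
    inc W X h a x ∈ grZ (W.gr (X.prod P)) (i + 2 * a) :=
  KOp.isHom (qop_inc hP a).kop i x hx

lemma hom_coe {a : ℕ} (ha : a ≤ P.dim) (i : ℤ) (x : W.H (X.prod P))
    (hx : x ∈ grZ (W.gr (X.prod P)) i) : coe W X h a x ∈ grZ (W.gr X) (i + 2 * (-a)) :=
  KOp.isHom (qop_coe hP ha).kop i x hx

lemma hom_prodF {F : Module.End W.K (W.H X)} (hF : IsHom (W.gr X) (-2) F) :
    IsHom (W.gr (X.prod P)) (-2) (prodF W X h F) := by
  apply IsHom.sum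
  intro a ha
  have ha' : a ≤ P.dim := by simp at ha; omega
  intro i y hy
  rw [LinearMap.add_apply]
  apply Submodule.add_mem
  · have h1 := hom_inc hP a _ _ (hF _ _ (hom_coe hP ha' i y hy))
    rwa [show i + 2 * (-(a : ℤ)) + -2 + 2 * (a : ℤ) = i + -2 by ring] at h1
  · rcases Nat.eq_zero_or_pos a with rfl | h0
    · rw [Nat.cast_zero, zero_mul, zero_smul]
      exact Submodule.zero_mem _
    · rw [LinearMap.smul_apply]
      apply Submodule.smul_mem
      have h1 := hom_inc hP (a - 1) _ _ (hom_coe hP ha' i y hy)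
      rwa [show i + 2 * (-(a : ℤ)) + 2 * ((a - 1 : ℕ) : ℤ) = i + -2 by
        rw [Nat.cast_sub h0]; push_cast; ring] at h1

/-- The triple of the product. -/
lemma prod_triple (hD : X.IsCyc 1 D) {H F : Module.End W.K (W.H X)} (ht : TripleOf W X D H F) :
    TripleOf W (X.prod P) (sumDiv ops D h) (wt (W.isInternal (X.prod P)) (X.prod P).dim)
      (prodF W X h F) := by
  refine ⟨wt_isWeight _, isLowering_iff.2 (hom_prodF hP (trip_hom ht)), ?_⟩
  have hmul : ∀ b x, lef W (X.prod P) (sumDiv ops D h) (inc W X h b x) =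
      inc W X h b (lef W X D x) + inc W X h (b + 1) x := fun b x => mul_inc hD b x
  apply LinearMap.ext
  intro y
  refine prod_induction hP (p := fun y => (lef W (X.prod P) (sumDiv ops D h) * prodF W X h F -
    prodF W X h F * lef W (X.prod P) (sumDiv ops D h)) y =
      wt (W.isInternal (X.prod P)) (X.prod P).dim y) ?_ ?_ y
  · intro y y' hy hy'; rw [map_add, map_add, hy, hy']
  · intro b hb x
    have hc : lef W X D (F x) - F (lef W X D x) = wt (W.isInternal X) X.dim x := by
      rw [← trip_wt ht]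
      exact congrArg (fun φ => φ x) ht.comm
    have h1 : prodF W X h F (inc W X h (b + 1) x) = inc W X h (b + 1) (F x) +
        (((b : W.K) + 1) * ((P.dim : W.K) - b)) • inc W X h b x := by
      by_cases hb' : b + 1 ≤ P.dim
      · rw [prodF_inc hP F hb', Nat.add_sub_cancel]
        congr 2
        push_cast
        ring
      · have h2 : b = P.dim := by omega
        rw [inc_zero hP (by omega : P.dim < b + 1), LinearMap.zero_apply, map_zero,
          LinearMap.zero_apply, zero_add, h2, sub_self, mul_zero, zero_smul]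
    rw [LinearMap.sub_apply, Module.End.mul_apply, Module.End.mul_apply, prodF_inc hP F hb, hmul,
      map_add, map_add, hmul, map_smul, hmul, prodF_inc hP F hb, h1, wt_inc hP]
    rw [show F (lef W X D x) = lef W X D (F x) - wt (W.isInternal X) X.dim x by
      rw [← hc]; abel, map_sub]
    rcases Nat.eq_zero_or_pos b with rfl | h0
    · simp only [Nat.cast_zero, zero_mul, zero_smul]
      module
    · obtain ⟨b, rfl⟩ : ∃ b', b = b' + 1 := ⟨b - 1, by omega⟩
      rw [Nat.add_sub_cancel]
      push_cast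
      module

end

end Pool.Agent.R370.US
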